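import Pool.Agent.H5.ZP.Ma

/-!
MP_37b730_gt (helper5): the final form of the theorem of the project MP_37b730_ZP.
-/

set_option autoImplicit false
set_option linter.all false

namespace Pool.Agent.H5.ZP

open Pool.Agent.H5.CP Pool.Agent.H75.CP

/-- an element of a subgroup isomorphic to `ℤ[1/p]` is a `p^k`-th power for all `k` -/
theorem Fi_root {Γ : Type} [Group Γ] (p : ℕ) (hp : p.Prime) (z : Γ) (S : Subgroup Γ) (hz : z ∈ S)
    (e : S ≃* Multiplicative (Zp p)) (k : ℕ) : ∃ u : Γ, u ^ (p ^ k) = z := by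
  obtain ⟨a, l, hal⟩ := (Multiplicative.toAdd (e ⟨z, hz⟩)).2
  have hp0 : (p : ℚ) ≠ 0 := by exact_mod_cast hp.ne_zero
  have hmem : ((Multiplicative.toAdd (e ⟨z, hz⟩) : Zp p) : ℚ) / (p : ℚ) ^ k ∈ Zp p := by
    refine ⟨a, l + k, ?_⟩
    rw [pow_add, ← hal]
    field_simp
  refine ⟨(e.symm (Multiplicative.ofAdd ⟨_, hmem⟩) : S), ?_⟩
  have h1 : (e.symm (Multiplicative.ofAdd ⟨_, hmem⟩)) ^ (p ^ k) = (⟨z, hz⟩ : S) := by
    rw [← map_pow, MulEquiv.symm_apply_eq]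
    have h2 : (Multiplicative.ofAdd (⟨_, hmem⟩ : Zp p)) ^ (p ^ k) =
        Multiplicative.ofAdd ((p ^ k) • (⟨_, hmem⟩ : Zp p)) := (ofAdd_nsmul _ _).symm
    rw [h2]
    apply Multiplicative.toAdd.injective
    apply Subtype.ext
    rw [toAdd_ofAdd, AddSubgroup.coe_nsmul]
    show (p ^ k) • (((Multiplicative.toAdd (e ⟨z, hz⟩) : Zp p) : ℚ) / (p : ℚ) ^ k) = _
    rw [nsmul_eq_mul, Nat.cast_pow]
    field_simp
  have h3 := congrArg Subtype.val h1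
  simpa using h3

theorem Fi_sub {Γ : Type} [Group Γ] (p : ℕ) (z : Γ)
    (h : ∃ f : Multiplicative (Zp p) →* Γ, Function.Injective f ∧
      f (Multiplicative.ofAdd ⟨1, Zs_one p⟩) = z) :
    ∃ S : Subgroup Γ, z ∈ S ∧ Nonempty (S ≃* Multiplicative (Zp p)) := by
  obtain ⟨f, hf, hz⟩ := h
  exact ⟨f.range, ⟨_, hz⟩, ⟨(MonoidHom.ofInjective hf).symm⟩⟩

theorem Fi_main (Γ : Type) [Group Γ] (hΓ : IsTypeFP Γ) :
    List.TFAE
      [InCP Γ,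
       ∀ z ∈ Subgroup.center Γ, z ≠ 1 → ∃ p : ℕ, p.Prime ∧
         ¬ ∃ S : Subgroup Γ, z ∈ S ∧ Nonempty (S ≃* Multiplicative (Zp p)),
       ∀ z ∈ Subgroup.center Γ, z ≠ 1 → ∃ p k : ℕ, p.Prime ∧ ¬ ∃ u : Γ, u ^ (p ^ k) = z] := by
  tfae_have 1 → 3 := fun h z hz hz1 => MaF_only hΓ h z hz hz1
  tfae_have 3 → 1 := fun h => MaF_if hΓ h
  tfae_have 3 → 2 := by
    intro h z hz hz1
    obtain ⟨p, k, hp, hk⟩ := h z hz hz1
    exact ⟨p, hp, fun ⟨S, hzS, ⟨e⟩⟩ => hk (Fi_root p hp z S hzS e k)⟩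
  tfae_have 2 → 3 := by
    intro h z hz hz1
    obtain ⟨p, hp, hS⟩ := h z hz hz1
    by_contra hcon
    push Not at hcon
    exact hS (Fi_sub p z (Ma_chain hΓ z hz hz1 p hp fun k => hcon p k hp))
  tfae_finish

end Pool.Agent.H5.ZP
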