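import Pool.Agent.H5.ZP.Fl
import Pool.Agent.H5.CP.FinD

/-!
Module Fd (row ZPFD).  `M` of type `FP_n` over `ℤ[G]`: `Ext^n(M, ZMod p)` is finite.  Same proof as `FinD_main` (H5/CP/FinD.lean) with finite instead of finitely generated: `n = 0`: `Hom(M, ZMod p)` embeds in `(Fin m → ZMod p)` by the values on the generators.
`n = 1`: `Ext¹(M,V)` is an image of `Hom(K,V)`, `K` finitely generated.  `n + 1`, `n ≥ 1`: `Ext^(n+1)(M,V)` is an image of `Ext^n(K,V)`, `K` of type `FP_n` (or `Fl_e3`).  `Fd_main`: `Fl_ext`.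
-/

set_option autoImplicit false
set_option linter.all false

namespace Pool.Agent.H5.ZP

open CategoryTheory CategoryTheory.Abelian CategoryTheory.Limits Pool.Agent.H5.CP Pool.Agent.H75.CP

theorem Fd_ext {G : Type} [Group G] (p : ℕ) [Fact p.Prime] (n : ℕ) (M : Rep.{0} ℤ G)
    (hM : FPm ℤ G n M) : Finite (Ext M (Rep.trivial ℤ G (ZMod p)) n) := by
  induction n generalizing M with
  | zero =>
    obtain ⟨m, q, hq⟩ := hM
    let e : Ext M (Rep.trivial ℤ G (ZMod p)) 0 → (Fin m → ZMod p) := fun x =>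
      Rep.freeLiftLEquiv ℤ G (Fin m) (Rep.trivial ℤ G (ZMod p)) (q ≫ Ext.addEquiv₀ x)
    have he : Function.Injective e := by
      intro φ ψ hφ
      have h1 : q ≫ Ext.addEquiv₀ φ = q ≫ Ext.addEquiv₀ ψ :=
        (Rep.freeLiftLEquiv ℤ G (Fin m) (Rep.trivial ℤ G (ZMod p))).injective hφ
      exact Ext.addEquiv₀.injective ((cancel_epi q).1 h1)
    exact Finite.of_injective e he
  | succ n ih =>
    obtain ⟨m, f, hf, hK⟩ := hM
    let S : ShortComplex (Rep.{0} ℤ G) := ShortComplex.mk (kernel.ι f) f (kernel.condition f)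
    have hS : S.ShortExact := { exact := ShortComplex.exact_of_f_is_kernel _ (kernelIsKernel f) }
    have hK' := ih (kernel f) hK
    let c : Ext (kernel f) (Rep.trivial ℤ G (ZMod p)) n → Ext M (Rep.trivial ℤ G (ZMod p)) (n + 1) :=
      fun x => hS.extClass.comp x (by omega)
    refine Finite.of_surjective c fun e => ?_
    have he : (Ext.mk₀ S.g).comp e (zero_add (n + 1)) = 0 := Ext.eq_zero_of_projective _
    obtain ⟨x, rfl⟩ := Ext.contravariant_sequence_exact₃ hS _ e he
      (show 1 + n = n + 1 by omega)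
    exact ⟨x, rfl⟩

theorem Fd_main {G : Type} [Group G] (p : ℕ) [Fact p.Prime] (h : FPinf G) (j : ℕ) : Ft p G j := by
  rw [Fl_ext]
  exact Fd_ext p j _ (h j)

end Pool.Agent.H5.ZP
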