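import Mathlib

/-!
Module Kn (row ZPKN, pure group theory).  Koenig's lemma.  `X_k` = the set of conjugacy classes (`ConjClasses Γ`, or the quotient) of elements `u` with `u^(p^k) = z`; finite (`hfin`), non-empty (`hroot`); the maps `X_(k+1) → X_k`, `[u] ↦ [u^p]`.
A compatible sequence of classes exists (`nonempty_sections_of_finite_inverse_system`, indexed by `ℕᵒᵖ`, or by hand: König).  `X_0 = {[z]}` and `z` is central.  Lift recursively: given `w_k` in the class `ξ_k`, take `u ∈ ξ_(k+1)`; `u^p` is conjugate to `w_k`, `x u^p x⁻¹ = w_k`; `w_(k+1) = x u x⁻¹`.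
(Alternatively: call `u` with `u^(p^k) = z` good if for every `l ≥ k` it is a `p^(l-k)`-th power of an element up to conjugacy — i.e. exactly, since conjugation can be moved; `z` is good; if `u` is good then some `v` with `v^p = u` is good, by the pigeonhole principle for the finite sets of classes.)
-/

set_option autoImplicit false
set_option linter.all false

namespace Pool.Agent.H5.ZP

private theorem Kn_conj {Γ : Type} [Group Γ] (x u : Γ) (n : ℕ) :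
    (x * u * x⁻¹) ^ n = x * u ^ n * x⁻¹ := conj_pow

private theorem Kn_step {Γ : Type} [Group Γ] (p : ℕ) (z : Γ)
    (hfin : ∀ k : ℕ, ∃ T : Set Γ, T.Finite ∧ ∀ u : Γ, u ^ (p ^ k) = z → ∃ x : Γ, x * u * x⁻¹ ∈ T)
    (k : ℕ) (u : Γ) (hu : u ^ (p ^ k) = z) (hg : ∀ m : ℕ, ∃ v : Γ, v ^ (p ^ m) = u) :
    ∃ v : Γ, v ^ p = u ∧ v ^ (p ^ (k + 1)) = z ∧ ∀ m : ℕ, ∃ y : Γ, y ^ (p ^ m) = v := by
  obtain ⟨T, hT, hTc⟩ := hfin (k + 1)
  choose v hv using fun m : ℕ => hg (m + 1)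
  have h1 : ∀ m, (v m ^ (p ^ m)) ^ p = u := by
    intro m
    rw [← pow_mul, ← pow_succ]
    exact hv m
  have h2 : ∀ m, (v m ^ (p ^ m)) ^ (p ^ (k + 1)) = z := by
    intro m
    rw [pow_succ', pow_mul, h1 m]
    exact hu
  choose x hx using fun m : ℕ => hTc _ (h2 m)
  have hTf : Finite T := hT
  obtain ⟨t, ht⟩ := Finite.exists_infinite_fiber
    (fun m : ℕ => (⟨x m * v m ^ (p ^ m) * (x m)⁻¹, hx m⟩ : T))
  have ht' : ((fun m : ℕ => (⟨x m * v m ^ (p ^ m) * (x m)⁻¹, hx m⟩ : T)) ⁻¹' {t}).Infinite :=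
    Set.infinite_coe_iff.1 ht
  have hroot : ∀ m : ℕ, ∃ y : Γ, y ^ (p ^ m) = (t : Γ) := by
    intro m
    obtain ⟨n, hn, hmn⟩ := ht'.exists_gt m
    have h3 : x n * v n ^ (p ^ n) * (x n)⁻¹ = (t : Γ) := congrArg Subtype.val hn
    refine ⟨(x n * v n * (x n)⁻¹) ^ (p ^ (n - m)), ?_⟩
    rw [← pow_mul, ← pow_add, Nat.sub_add_cancel hmn.le, Kn_conj]
    exact h3
  obtain ⟨n, hn, -⟩ := ht'.exists_gt 0
  have h3 : x n * v n ^ (p ^ n) * (x n)⁻¹ = (t : Γ) := congrArg Subtype.val hn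
  refine ⟨v n ^ (p ^ n), h1 n, h2 n, fun m => ?_⟩
  obtain ⟨y, hy⟩ := hroot m
  refine ⟨(x n)⁻¹ * y * (x n)⁻¹⁻¹, ?_⟩
  rw [Kn_conj, hy, ← h3]
  group

theorem Kn_main {Γ : Type} [Group Γ] (p : ℕ) (z : Γ)
    (hfin : ∀ k : ℕ, ∃ T : Set Γ, T.Finite ∧ ∀ u : Γ, u ^ (p ^ k) = z → ∃ x : Γ, x * u * x⁻¹ ∈ T)
    (hroot : ∀ k : ℕ, ∃ u : Γ, u ^ (p ^ k) = z) :
    ∃ w : ℕ → Γ, w 0 = z ∧ ∀ k, w (k + 1) ^ p = w k := by
  choose f hf1 hf2 hf3 using Kn_step p z hfin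
  let W : (k : ℕ) → {u : Γ // u ^ (p ^ k) = z ∧ ∀ m : ℕ, ∃ v : Γ, v ^ (p ^ m) = u} :=
    fun k => Nat.rec (motive := fun k => {u : Γ // u ^ (p ^ k) = z ∧
        ∀ m : ℕ, ∃ v : Γ, v ^ (p ^ m) = u})
      ⟨z, by simp, hroot⟩
      (fun k u => ⟨f k u.1 u.2.1 u.2.2, hf2 k u.1 u.2.1 u.2.2, hf3 k u.1 u.2.1 u.2.2⟩) k
  exact ⟨fun k => (W k).1, rfl, fun k => hf1 k (W k).1 (W k).2.1 (W k).2.2⟩

end Pool.Agent.H5.ZP
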