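import Mathlib

/-!
Module Zs (row ZPZS): copies of `ℤ[1/p]` from chains of roots.
-/

set_option autoImplicit false
set_option linter.all false

namespace Pool.Agent.H5.ZP

/-- the additive group `ℤ[1/p]` -/
def Zp (p : ℕ) : AddSubgroup ℚ where
  carrier := {q | ∃ (a : ℤ) (k : ℕ), q * (p : ℚ) ^ k = a}
  zero_mem' := ⟨0, 0, by simp⟩
  add_mem' := by
    rintro q r ⟨a, k, hq⟩ ⟨b, l, hr⟩
    refine ⟨a * (p : ℤ) ^ l + b * (p : ℤ) ^ k, k + l, ?_⟩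
    push_cast
    rw [← hq, ← hr, pow_add]
    ring
  neg_mem' := by
    rintro q ⟨a, k, hq⟩
    exact ⟨-a, k, by rw [neg_mul, hq]; push_cast; rfl⟩

theorem Zs_one (p : ℕ) : (1 : ℚ) ∈ Zp p := ⟨1, 0, by simp⟩

theorem Zs_pow {Γ : Type} [Group Γ] {p : ℕ} {w : ℕ → Γ} (hw : ∀ k, w (k + 1) ^ p = w k) (k m : ℕ) :
    w (k + m) ^ (p ^ m) = w k := by
  induction m with
  | zero => simp
  | succ m ih => rw [← add_assoc, pow_succ', pow_mul, hw, ih]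

theorem Zs_lift {Γ : Type} [Group Γ] {p : ℕ} {w : ℕ → Γ} (hw : ∀ k, w (k + 1) ^ p = w k) (k m : ℕ)
    (a : ℤ) : w k ^ a = w (k + m) ^ (a * (p : ℤ) ^ m) := by
  conv_lhs => rw [← Zs_pow hw k m]
  rw [← zpow_natCast, ← zpow_mul]
  congr 1
  push_cast
  ring

theorem Zs_wd {Γ : Type} [Group Γ] {p : ℕ} (hp : p.Prime) {w : ℕ → Γ}
    (hw : ∀ k, w (k + 1) ^ p = w k) {q : ℚ} {a b : ℤ} {k l : ℕ} (ha : q * (p : ℚ) ^ k = a)
    (hb : q * (p : ℚ) ^ l = b) : w k ^ a = w l ^ b := by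
  rw [Zs_lift hw k l a, Zs_lift hw l k b, add_comm l k]
  congr 1
  have : ((a * (p : ℤ) ^ l : ℤ) : ℚ) = ((b * (p : ℤ) ^ k : ℤ) : ℚ) := by
    push_cast
    rw [← ha, ← hb]
    ring
  exact_mod_cast this

theorem Zs_main {Γ : Type} [Group Γ] (p : ℕ) (hp : p.Prime) (z : Γ) (hz : ∀ n : ℤ, z ^ n = 1 → n = 0)
    (w : ℕ → Γ) (h0 : w 0 = z) (hw : ∀ k, w (k + 1) ^ p = w k) :
    ∃ f : Multiplicative (Zp p) →* Γ, Function.Injective f ∧
      f (Multiplicative.ofAdd ⟨1, Zs_one p⟩) = z := by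
  have hex : ∀ q : Zp p, ∃ (a : ℤ) (k : ℕ), (q : ℚ) * (p : ℚ) ^ k = a := fun q => q.2
  choose A K hAK using hex
  let F : Zp p → Γ := fun q => w (K q) ^ (A q)
  have hF : ∀ (q : Zp p) (a : ℤ) (k : ℕ), (q : ℚ) * (p : ℚ) ^ k = a → F q = w k ^ a :=
    fun q a k h => Zs_wd hp hw (hAK q) h
  have hadd : ∀ q r : Zp p, F (q + r) = F q * F r := by
    intro q r
    have h1 : ((q + r : Zp p) : ℚ) * (p : ℚ) ^ (K q + K r) =
        ((A q * (p : ℤ) ^ (K r) + A r * (p : ℤ) ^ (K q) : ℤ) : ℚ) := by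
      push_cast
      rw [← hAK q, ← hAK r, pow_add]
      ring
    rw [hF _ _ _ h1, zpow_add, ← Zs_lift hw (K q) (K r), add_comm (K q) (K r),
      ← Zs_lift hw (K r) (K q)]
  have hzero : F 0 = 1 := by
    have h1 := hadd 0 0
    rw [add_zero] at h1
    exact (mul_eq_left.1 h1.symm)
  refine ⟨{ toFun := fun q => F q.toAdd, map_one' := hzero, map_mul' := fun q r => hadd _ _ },
    ?_, ?_⟩
  · rw [injective_iff_map_eq_one]
    intro q hq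
    have h1 : F q.toAdd = 1 := hq
    have h2 : z ^ (A q.toAdd) = 1 := by
      have h3 : w (K q.toAdd) ^ (p ^ (K q.toAdd)) = z := by
        have h4 := Zs_pow hw 0 (K q.toAdd)
        rw [zero_add, h0] at h4
        exact h4
      rw [← h3, ← zpow_natCast, ← zpow_mul, mul_comm, zpow_mul]
      have h5 : w (K q.toAdd) ^ (A q.toAdd) = 1 := h1
      rw [h5, one_zpow]
    have h6 := hz _ h2
    have h7 := hAK q.toAdd
    rw [h6, Int.cast_zero] at h7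
    have h8 : ((p : ℚ) ^ (K q.toAdd)) ≠ 0 := pow_ne_zero _ (by exact_mod_cast hp.ne_zero)
    have h9 : ((q.toAdd : Zp p) : ℚ) = 0 := (mul_eq_zero.1 h7).resolve_right h8
    have h10 : q.toAdd = 0 := Subtype.ext h9
    exact h10
  · show F ⟨1, Zs_one p⟩ = z
    rw [hF ⟨1, Zs_one p⟩ 1 0 (by simp), zpow_one, h0]

theorem Zs_conv {Γ : Type} [Group Γ] (p : ℕ) (hp : p.Prime) (z : Γ)
    (f : Multiplicative (Zp p) →* Γ) (hf : f (Multiplicative.ofAdd ⟨1, Zs_one p⟩) = z) (k : ℕ) :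
    ∃ u : Γ, u ^ (p ^ k) = z := by
  have h8 : ((p : ℚ) ^ k) ≠ 0 := pow_ne_zero _ (by exact_mod_cast hp.ne_zero)
  have hm : (1 / (p : ℚ) ^ k) ∈ Zp p := ⟨1, k, by rw [div_mul_cancel₀ _ h8]; simp⟩
  refine ⟨f (Multiplicative.ofAdd ⟨1 / (p : ℚ) ^ k, hm⟩), ?_⟩
  rw [← map_pow, ← hf, ← ofAdd_nsmul]
  congr 2
  apply Subtype.ext
  show ((p ^ k : ℕ) • (1 / (p : ℚ) ^ k) : ℚ) = 1
  rw [nsmul_eq_mul]
  push_cast
  field_simp

end Pool.Agent.H5.ZP
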