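import Pool.Agent.H5.ZP.In
import Pool.Agent.H5.ZP.Kn
import Pool.Agent.H5.ZP.Fd
import Pool.Agent.H5.ZP.Zs
import Pool.Agent.H75.CP.MaF

/-!
Module Ma (row ZPMA).  Use only the STATEMENTS of In, Kn, Fd, Zs, MaF.
`Ma_chain`: `Γ` of type FP, `z ≠ 1` central: `z` has infinite order (`FPcd_tf`), `S = zpowers z` is normal, `E : CX Γ (Γ ⧸ S)` (`π = mk' S`, `t = z`); `CDfin (ZMod p) Γ` (`FPcd_fin`), `FPinf (Γ ⧸ S)` (`FPcd_inf`, `TowB_main` or `FPd_main`), `Fd_main`; `In_main` for all `k`, `Kn_main`.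
`Ma_main`: `MaF_if`/`MaF_only` (H75/CP/MaF.lean) and `Ma_chain`, `Zs_main`, `Zs_conv`.
-/

set_option autoImplicit false
set_option linter.all false

namespace Pool.Agent.H5.ZP

open CategoryTheory CategoryTheory.Abelian CategoryTheory.Limits Pool.Agent.H5.CP Pool.Agent.H75.CP

theorem Ma_chain {Γ : Type} [Group Γ] (hΓ : IsTypeFP Γ) (z : Γ) (hz : z ∈ Subgroup.center Γ)
    (hz1 : z ≠ 1) (p : ℕ) (hp : p.Prime) (h : ∀ k : ℕ, ∃ u : Γ, u ^ (p ^ k) = z) :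
    ∃ f : Multiplicative (Zp p) →* Γ, Function.Injective f ∧
      f (Multiplicative.ofAdd ⟨1, Zs_one p⟩) = z := by
  have : Fact p.Prime := ⟨hp⟩
  have hinf : ∀ n : ℤ, z ^ n = 1 → n = 0 := by
    intro n hn
    by_contra hn0
    exact hz1 (FPcd_tf hΓ z (isOfFinOrder_iff_zpow_eq_one.2 ⟨n, hn0, hn⟩))
  have hle : Subgroup.zpowers z ≤ Subgroup.center Γ := by
    rw [Subgroup.zpowers_le]
    exact hz
  have hN : (Subgroup.zpowers z).Normal := by
    constructor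
    intro n hn g
    rw [Subgroup.mem_center_iff.1 (hle hn) g, mul_inv_cancel_right]
    exact hn
  let E : CX Γ (Γ ⧸ Subgroup.zpowers z) :=
    { π := QuotientGroup.mk' _
      t := z
      surj := QuotientGroup.mk'_surjective _
      ker := fun x => by
        rw [QuotientGroup.mk'_apply, QuotientGroup.eq_one_iff, Subgroup.mem_zpowers_iff]
        exact ⟨fun ⟨n, hn⟩ => ⟨n, hn.symm⟩, fun ⟨n, hn⟩ => ⟨n, hn.symm⟩⟩
      cent := hz
      inf := hinf }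
  obtain ⟨n, hn⟩ := FPcd_fin (ZMod p) hΓ
  have hF : FPinf (Γ ⧸ Subgroup.zpowers z) := fun m => FPd_main z hz hinf (FPcd_inf hΓ) m
  obtain ⟨w, hw0, hw⟩ := Kn_main p z
    (fun k => In_main p k E n 0 hn (fun j _ => Fd_main p hF j)) h
  exact Zs_main p hp z hinf w hw0 hw

theorem Ma_main {Γ : Type} [Group Γ] (hΓ : IsTypeFP Γ) :
    InCP Γ ↔ ∀ z ∈ Subgroup.center Γ, z ≠ 1 → ∃ p : ℕ, p.Prime ∧
      ¬ ∃ f : Multiplicative (Zp p) →* Γ, Function.Injective f ∧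
        f (Multiplicative.ofAdd ⟨1, Zs_one p⟩) = z := by
  constructor
  · intro h z hz hz1
    obtain ⟨p, k, hp, hk⟩ := MaF_only hΓ h z hz hz1
    exact ⟨p, hp, fun ⟨f, _, hf⟩ => hk (Zs_conv p hp z f hf k)⟩
  · intro h
    refine MaF_if hΓ fun z hz hz1 => ?_
    obtain ⟨p, hp, hS⟩ := h z hz hz1
    by_contra hcon
    push Not at hcon
    exact hS (Ma_chain hΓ z hz hz1 p hp fun k => hcon p k hp)

end Pool.Agent.H5.ZP
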