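import Pool.Agent.H5.ZP.Fl
import Pool.Agent.H5.CP.AugE

/-!
Module Ax (row ZPAX).  Use only the STATEMENTS of Fl.  Shift by the augmentation ideal `I = kernel (aug ℤ G)`: `0 → I → ℤ[G] → ℤ → 0` (`AugE_exact ℤ G`, complex `augSC`; `ℤ[G] = Rep.leftRegular` is projective: see `rgys_up` in H5/CP/RGys.lean).
`N` has finite underlying set.  `Ext^0(ℤ[G], N) ≅ Hom(ℤ[G], N) ≅ N` is finite (`Rep.leftRegularHomEquiv`; `Ext.homEquiv₀`), `Ext^(n+1)(ℤ[G], N) = 0` (`Ext.eq_zero_of_projective`), so all `Ext^n(ℤ[G], N)` are finite.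
`Ax_main`: `Fl_e3` (→) and `Fl_e1` (←) for `AugE_exact`.   `Ax_zero`: `Ext^0(ℤ, N) ≅ Hom(ℤ, N)` embeds in `N` (image of `1`).
-/

set_option autoImplicit false
set_option linter.all false

namespace Pool.Agent.H5.ZP

open CategoryTheory CategoryTheory.Abelian CategoryTheory.Limits Pool.Agent.H5.CP Pool.Agent.H75.CP

theorem Ax_lr {G : Type} [Group G] (N : Rep.{0} ℤ G) [Finite N.V] (n : ℕ) :
    Finite (Ext (Rep.leftRegular ℤ G) N n) := by
  cases n with
  | zero =>
    have e : Ext (Rep.leftRegular ℤ G) N 0 ≃ N.V :=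
      Ext.homEquiv₀.trans (Rep.leftRegularHomEquiv N).toEquiv
    exact Finite.of_equiv _ e.symm
  | succ n =>
    have h : ∀ e : Ext (Rep.leftRegular ℤ G) N (n + 1), e = 0 := fun e =>
      Ext.eq_zero_of_projective e
    have : Subsingleton (Ext (Rep.leftRegular ℤ G) N (n + 1)) :=
      ⟨fun a b => (h a).trans (h b).symm⟩
    exact inferInstance

theorem Ax_zero {G : Type} [Group G] (N : Rep.{0} ℤ G) [Finite N.V] :
    Finite (Ext (Rep.trivial ℤ G ℤ) N 0) := by
  have hinj : Function.Injective (fun f : Rep.trivial ℤ G ℤ ⟶ N => (f.hom (1 : ℤ) : N.V)) := by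
    intro f g hfg
    apply Rep.hom_ext
    refine DFunLike.ext _ _ (fun x => ?_)
    have hx : ∀ f : Rep.trivial ℤ G ℤ ⟶ N, (f.hom (x : ℤ) : N.V) = x • (f.hom (1 : ℤ) : N.V) := by
      intro f
      have h := map_zsmul f.hom x (1 : ℤ)
      rw [← h]
      congr 1
      simp
    exact (hx f).trans ((congrArg (fun z : N.V => x • z) hfg).trans (hx g).symm)
  have : Finite (Rep.trivial ℤ G ℤ ⟶ N) := Finite.of_injective _ hinj
  exact Finite.of_equiv _ (Ext.homEquiv₀ (X := Rep.trivial ℤ G ℤ) (Y := N)).symm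

theorem Ax_main {G : Type} [Group G] (N : Rep.{0} ℤ G) [Finite N.V] (n : ℕ) :
    Finite (Ext (kernel (aug ℤ G)) N n) ↔ Finite (Ext (Rep.trivial ℤ G ℤ) N (n + 1)) := by
  have hS := AugE_exact ℤ G
  constructor
  · intro h
    exact Fl_e3 hS N n h (Ax_lr N (n + 1))
  · intro h
    exact Fl_e1 hS N n (Ax_lr N n) h

end Pool.Agent.H5.ZP
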