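import Pool.Agent.H5.ZP.Defs
import Pool.Agent.H75.CP.QSe
import Pool.Agent.H75.CP.FunA
import Pool.Agent.H75.CP.KilB

/-!
Module Co (row ZPCO).  `Π = C × P` (any groups), `M : Rep k C`, `B = Rep.res (MonoidHom.fst C P) M`.  The constant functions `QBi P B : B → FunR P B` (`Π` acts on `P` by `instActSnd`) induce SURJECTIONS `H^j(Π;B) → H^j(Π;FunR P B)`.
Induction on `j`, for all `M`.
`j = 0`: `H^0 = invariants` (`groupCohomology.H0Iso`, `map_id_comp_H0Iso_hom`).  An invariant `F` satisfies `F(x) = F(1)` (act with `(1,x)`) and `F(1) ∈ B^Π` (act with `(c,1)`; `(1,x)` acts trivially on `B`).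
`j + 1`: `0 → M → FunR C M → QB C M → 0` (`QSe_main C M`, `C` acts on itself by left multiplication) is exact in `Rep k C`; `Rep.res (fst)` of it is exact (`Rep.resFunctor`, or `VTop_shortExact`), and `FunR P` of that too (`QSe_fun`).
 `FunR P (res (FunR C M))` is acyclic in degrees `≥ 1`: it is `FunR (P × C) B` with `Π` acting freely on `P × C` (`KilA_one`, `KilB_main` with `MulEquiv.refl` and currying, `FunA_free`).
 So `δ : H^j(Π; FunR P (res Q)) → H^(j+1)(Π; FunR P B)` is onto (`Q = QB C M`; exactness `mapShortComplex₁_exact`), by induction `H^j(Π;res Q) → H^j(Π;FunR P (res Q))` is onto, and `groupCohomology.δ_naturality` for the morphism of short complexes given by the constants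
 (naturality `QBi P _ ≫ FunRm P φ = φ ≫ QBi P _`) gives the claim.
-/

set_option autoImplicit false
set_option linter.all false

namespace Pool.Agent.H5.ZP

open CategoryTheory CategoryTheory.Abelian CategoryTheory.Limits Pool.Agent.H5.CP Pool.Agent.H75.CP

/-- currying -/
def Co_e (C P V : Type) [AddCommGroup V] : (C × P → V) ≃+ (P → C → V) where
  toFun F x c := F (c, x)
  invFun F y := F y.2 y.1
  left_inv _ := rfl
  right_inv _ := rfl
  map_add' _ _ := rfl

theorem Co_acyc {k C P : Type} [CommRing k] [Group C] [Group P] (M : Rep.{0} k C) (j : ℕ) :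
    IsZero (groupCohomology
      (FunR P (Rep.res (MonoidHom.fst C P) (FunR C M))) (j + 1)) := by
  rw [← KilA_one]
  refine KilB_main (MulEquiv.refl (C × P)) (FunR (C × P) (Rep.res (MonoidHom.fst C P) M))
    (FunR P (Rep.res (MonoidHom.fst C P) (FunR C M))) (Co_e C P M.V) (fun g F => rfl) 1 j ?_
  rw [KilA_one]
  refine FunA_free (C × P) (Rep.res (MonoidHom.fst C P) M) j fun g y h => ?_
  exact mul_eq_right.1 (show g * y = y from h)

theorem Co_nat {k G : Type} [CommRing k] [Group G] (Y : Type) [MulAction G Y]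
    {A B : Rep.{0} k G} (f : A ⟶ B) : QBi Y A ≫ FunRm Y f = f ≫ QBi Y B := by
  ext b
  rfl

theorem Co_zero {k C P : Type} [CommRing k] [Group C] [Group P] (M : Rep.{0} k C) :
    Function.Surjective ((groupCohomology.functor k (C × P) 0).map
      (QBi P (Rep.res (MonoidHom.fst C P) M))).hom := by
  intro y
  let B : Rep.{0} k (C × P) := Rep.res (MonoidHom.fst C P) M
  let w : (FunR P B).ρ.invariants := (groupCohomology.H0Iso (FunR P B)).hom y
  let W : P → M.V := w.1
  have hW : ∀ (c : C) (x u : P), M.ρ c (W (x⁻¹ * u)) = W u := fun c x u =>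
    congrFun (show ((FunR P B).ρ (c, x) w.1 : P → M.V) = W from w.2 (c, x)) u
  have h1 : ∀ x : P, W x = W 1 := by
    intro x
    have h := hW 1 x x
    rw [inv_mul_cancel, map_one] at h
    exact h.symm
  have h2 : ∀ g : C × P, B.ρ g (W 1) = W 1 := by
    intro g
    have h := hW g.1 1 1
    rw [inv_one, mul_one] at h
    exact h
  let a : B.ρ.invariants := ⟨W 1, h2⟩
  refine ⟨(groupCohomology.H0Iso B).inv a, ?_⟩
  have h3 := groupCohomology.map_id_comp_H0Iso_hom (QBi P B)
  have h4 := congrArg (fun t => ModuleCat.Hom.hom t ((groupCohomology.H0Iso B).inv a)) h3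
  have h5 : Function.Injective (groupCohomology.H0Iso (FunR P B)).hom :=
    (ModuleCat.mono_iff_injective _).1 inferInstance
  apply h5
  refine Eq.trans h4 ?_
  show ((Rep.invariantsFunctor k (C × P)).map (QBi P B)).hom
    ((groupCohomology.H0Iso B).hom ((groupCohomology.H0Iso B).inv a)) = _
  have h6 : (groupCohomology.H0Iso B).hom ((groupCohomology.H0Iso B).inv a) = a := by
    have h7 := congrArg (fun t => ModuleCat.Hom.hom t a) (groupCohomology.H0Iso B).inv_hom_id
    exact h7
  rw [h6]
  apply Subtype.ext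
  funext x
  exact (h1 x).symm

theorem Co_main {k C P : Type} [CommRing k] [Group C] [Group P] (M : Rep.{0} k C) (j : ℕ) :
    Function.Surjective ((groupCohomology.functor k (C × P) j).map
      (QBi P (Rep.res (MonoidHom.fst C P) M))).hom := by
  induction j generalizing M with
  | zero => exact Co_zero M
  | succ j ih =>
    let R : ShortComplex (Rep.{0} k (C × P)) :=
      (QBS C M).map (Rep.resFunctor (MonoidHom.fst C P))
    have hR : R.ShortExact := by
      have h := QSe_main C M
      exact (Rep.shortExact_res (MonoidHom.fst C P)).2 h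
    let T : ShortComplex (Rep.{0} k (C × P)) :=
      ShortComplex.mk (FunRm P R.f) (FunRm P R.g) (FunRm_comp_zero P)
    have hT : T.ShortExact := QSe_fun P R hR
    let Φ : R ⟶ T :=
      { τ₁ := QBi P R.X₁
        τ₂ := QBi P R.X₂
        τ₃ := QBi P R.X₃
        comm₁₂ := Co_nat P R.f
        comm₂₃ := Co_nat P R.g }
    have hnat := groupCohomology.δ_naturality hR hT Φ j (j + 1) rfl
    have hepi : Epi (groupCohomology.δ hT j (j + 1) rfl) :=
      groupCohomology.epi_δ_of_isZero hT j (Co_acyc M j)
    have hsur : Function.Surjective (groupCohomology.δ hT j (j + 1) rfl).hom :=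
      (ModuleCat.epi_iff_surjective _).1 hepi
    intro y
    obtain ⟨z, hz⟩ := hsur y
    obtain ⟨z', hz'⟩ := ih (QB C M) z
    refine ⟨(groupCohomology.δ hR j (j + 1) rfl).hom z', ?_⟩
    have h4 := congrArg (fun t => ModuleCat.Hom.hom t z') hnat
    refine Eq.trans h4 ?_
    rw [← hz, ← hz']
    rfl

end Pool.Agent.H5.ZP
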