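import Pool.Agent.H5.ZP.Defs
import Pool.Agent.H5.CP.LesA
import Pool.Agent.H5.CP.ExA

/-!
Module Fl (row ZPFL).  Finiteness in the long exact sequences.
`Fl_mid`: `α : A →+ B`, `β : B →+ C`, `β b = 0 → b ∈ im α`, `A` and `C` finite: `B` is finite (the fibres of `β` are translates of the kernel, which is an image of `A`;
 e.g. `Finite.of_finite_fibers`, or choose a section `σ` of `β` on its image: every `b` is `α a + σ(β b)`, so `B` is an image of `A × C`).
`Fl_1 … Fl_onto`: `groupCohomology.mapShortComplex₁_exact` etc. (see `KilC_aux`, `KilC_1`, … in H75/CP/KilC.lean: `ShortComplex.moduleCat_exact_iff`).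
`Fl_e1, Fl_e2, Fl_e3`: the same for `Ext` in the first variable: `Ext.contravariant_sequence_exact₁`, `₂`, `₃` (usage: H5/CP/GysH.lean, RGys.lean, QRes.lean).
`Fl_iso`: `groupCohomology.mapIso` (Mathlib, Functoriality) for `e : G ≃* G'` and the identity of `ZMod p` (or `KilB`-like); `Fl_ext`: `ExA_equiv`.
-/

set_option autoImplicit false
set_option linter.all false

namespace Pool.Agent.H5.ZP

open CategoryTheory CategoryTheory.Abelian CategoryTheory.Limits Pool.Agent.H5.CP Pool.Agent.H75.CP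

universe u v w

theorem Fl_midU {A : Type u} {B : Type v} {C : Type w} [AddCommGroup A] [AddCommGroup B]
    [AddCommGroup C] (α : A →+ B) (β : B →+ C) (h : ∀ b, β b = 0 → ∃ a, α a = b)
    (hA : Finite A) (hC : Finite C) : Finite B := by
  classical
  let σ : C → B := fun c => if hc : ∃ b, β b = c then hc.choose else 0
  have hσ : ∀ b, β (σ (β b)) = β b := by
    intro b
    have hc : ∃ b', β b' = β b := ⟨b, rfl⟩
    have h1 : σ (β b) = hc.choose := dif_pos hc
    rw [h1]
    exact hc.choose_spec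
  refine Finite.of_surjective (fun x : A × C => α x.1 + σ x.2) fun b => ?_
  obtain ⟨a, ha⟩ := h (b - σ (β b)) (by rw [map_sub, hσ, sub_self])
  exact ⟨(a, β b), by simp only [ha, sub_add_cancel]⟩

theorem Fl_mid {A B C : Type} [AddCommGroup A] [AddCommGroup B] [AddCommGroup C] (α : A →+ B)
    (β : B →+ C) (h : ∀ b, β b = 0 → ∃ a, α a = b) [Finite A] [Finite C] : Finite B :=
  Fl_midU α β h inferInstance inferInstance

theorem Fl_aux {k : Type} [CommRing k] {S : ShortComplex (ModuleCat.{0} k)} (hS : S.Exact)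
    (h1 : Finite S.X₁) (h3 : Finite S.X₃) : Finite S.X₂ :=
  Fl_midU S.f.hom.toAddMonoidHom S.g.hom.toAddMonoidHom
    (fun b hb => (ShortComplex.moduleCat_exact_iff S).1 hS b hb) h1 h3

theorem Fl_1 {k G : Type} [CommRing k] [Group G] {S : ShortComplex (Rep.{0} k G)}
    (hS : S.ShortExact) (j : ℕ) (h3 : Finite (groupCohomology S.X₃ j))
    (h2 : Finite (groupCohomology S.X₂ (j + 1))) : Finite (groupCohomology S.X₁ (j + 1)) :=
  Fl_aux (groupCohomology.mapShortComplex₁_exact hS (rfl : j + 1 = j + 1)) h3 h2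

theorem Fl_2 {k G : Type} [CommRing k] [Group G] {S : ShortComplex (Rep.{0} k G)}
    (hS : S.ShortExact) (j : ℕ) (h1 : Finite (groupCohomology S.X₁ j))
    (h3 : Finite (groupCohomology S.X₃ j)) : Finite (groupCohomology S.X₂ j) :=
  Fl_aux (groupCohomology.mapShortComplex₂_exact hS j) h1 h3

theorem Fl_onto {k G : Type} [CommRing k] [Group G] {S : ShortComplex (Rep.{0} k G)}
    (hS : S.ShortExact) (j : ℕ) (h3 : IsZero (groupCohomology S.X₃ j)) :
    Function.Surjective ((groupCohomology.functor k G j).map S.f).hom := by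
  intro y
  have h0 := (ShortComplex.moduleCat_exact_iff _).1 (groupCohomology.mapShortComplex₂_exact hS j) y (by
    have hz : Subsingleton (groupCohomology S.X₃ j) := ModuleCat.subsingleton_of_isZero h3
    exact hz.elim _ _)
  exact h0

theorem Fl_e1 {k G : Type} [CommRing k] [Group G] {S : ShortComplex (Rep.{0} k G)}
    (hS : S.ShortExact) (N : Rep.{0} k G) (n : ℕ) (h2 : Finite (Ext S.X₂ N n))
    (h3 : Finite (Ext S.X₃ N (n + 1))) : Finite (Ext S.X₁ N n) :=
  Fl_midU ((Ext.mk₀ S.f).precomp N (zero_add n)) (hS.extClass.precomp N (add_comm 1 n))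
    (fun b hb => Ext.contravariant_sequence_exact₁ hS N b (add_comm 1 n) hb) h2 h3

theorem Fl_e2 {k G : Type} [CommRing k] [Group G] {S : ShortComplex (Rep.{0} k G)}
    (hS : S.ShortExact) (N : Rep.{0} k G) (n : ℕ) (h1 : Finite (Ext S.X₁ N n))
    (h3 : Finite (Ext S.X₃ N n)) : Finite (Ext S.X₂ N n) :=
  Fl_midU ((Ext.mk₀ S.g).precomp N (zero_add n)) ((Ext.mk₀ S.f).precomp N (zero_add n))
    (fun b hb => Ext.contravariant_sequence_exact₂ hS N b hb) h3 h1

theorem Fl_e3 {k G : Type} [CommRing k] [Group G] {S : ShortComplex (Rep.{0} k G)}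
    (hS : S.ShortExact) (N : Rep.{0} k G) (n : ℕ) (h1 : Finite (Ext S.X₁ N n))
    (h2 : Finite (Ext S.X₂ N (n + 1))) : Finite (Ext S.X₃ N (n + 1)) :=
  Fl_midU (hS.extClass.precomp N (add_comm 1 n)) ((Ext.mk₀ S.g).precomp N (zero_add (n + 1)))
    (fun b hb => Ext.contravariant_sequence_exact₃ hS N b hb (add_comm 1 n)) h1 h2

theorem Fl_ext {G : Type} [Group G] (p j : ℕ) :
    Ft p G j ↔ Finite (Ext (Rep.trivial ℤ G ℤ) (Rep.trivial ℤ G (ZMod p)) j) := by
  obtain ⟨e⟩ := ExA_equiv (Rep.trivial ℤ G (ZMod p)) j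
  exact ⟨fun h => by
    have := h
    unfold Ft at this
    exact Finite.of_equiv _ e.symm.toEquiv, fun h => Finite.of_equiv _ e.toEquiv⟩

theorem Fl_iso {G G' : Type} [Group G] [Group G'] (e : G ≃* G') (p j : ℕ) :
    Nonempty (groupCohomology (Rep.trivial ℤ G (ZMod p)) j ≃
      groupCohomology (Rep.trivial ℤ G' (ZMod p)) j) :=
  ⟨((groupCohomology.mapIso e.symm (LinearEquiv.refl ℤ (ZMod p))
    (A := Rep.trivial ℤ G (ZMod p)) (B := Rep.trivial ℤ G' (ZMod p)) (fun g => rfl) j).symm).toLinearEquiv.toEquiv⟩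

end Pool.Agent.H5.ZP
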