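import Pool.Agent.H5.ZP.Defs
import Pool.Agent.H5.CP.VTop

/-!
Module Sg (row ZPSG).  `Π = C × Cy p` acts on `Cy p` (`instActSnd`), `V = Rep.trivial ℤ Π (ZMod p)`.
`Sg_sum : FunR (Cy p) V → V`, `F ↦ Σ_x F(x)`; equivariant (reindex).  `Sg_a : QB (Cy p) V → FunR (Cy p) V`, `[F] ↦ (x ↦ F(σ⁻¹ x) - F(x))` with `σ = ofAdd 1` (zero on constants; equivariant because `Cy p` is commutative).
`Sg_exact`: `0 → QB → FunR → V → 0` is short exact (`VTop_shortExact`, H5/CP/VTop.lean): injective: `F(σ⁻¹x) = F(x)` for all `x` implies `F` constant (`σ` generates `Cy p`).  Onto: the function `Pi.single 1 v`.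
 Middle: `Σ F = 0`: `G(ofAdd i) = - Σ_(l ∈ range (i.val + 1)) F(ofAdd l)` satisfies `G(σ⁻¹x) - G(x) = F(x)`: for `i.val ≥ 1` clear, for `i = 0`: `G(ofAdd (-1)) = - Σ_(all) F = 0` and `- G(1) = F(1)`.
`Sg_zero`: `QBi (Cy p) V ≫ Sg_sum = 0`, since `Σ_x b = p b = 0`.
-/

set_option autoImplicit false
set_option linter.all false

namespace Pool.Agent.H5.ZP

open CategoryTheory CategoryTheory.Abelian CategoryTheory.Limits Pool.Agent.H5.CP Pool.Agent.H75.CP

/-- the generator of `Cy p` -/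
def Sg_t (p : ℕ) : Cy p := Multiplicative.ofAdd (1 : ZMod p)

theorem Sg_const {p : ℕ} [Fact p.Prime] (F : Cy p → ZMod p)
    (h : ∀ x, F ((Sg_t p)⁻¹ * x) = F x) (x : Cy p) : F x = F 1 := by
  have h1 : ∀ n : ℕ, F (Multiplicative.ofAdd ((n : ℕ) : ZMod p)) = F 1 := by
    intro n
    induction n with
    | zero =>
      have : (Multiplicative.ofAdd ((0 : ℕ) : ZMod p) : Cy p) = 1 := by
        rw [Nat.cast_zero]; rfl
      rw [this]
    | succ n ih =>
      rw [← h, ← ih]
      congr 1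
      show Multiplicative.ofAdd (-(1 : ZMod p) + ((n + 1 : ℕ) : ZMod p)) =
        Multiplicative.ofAdd ((n : ℕ) : ZMod p)
      congr 1
      push_cast
      ring
  have h2 := h1 (Multiplicative.toAdd x).val
  rw [ZMod.natCast_zmod_val] at h2
  exact h2

theorem Sg_range {p : ℕ} [Fact p.Prime] (F : Cy p → ZMod p) :
    ∑ l ∈ Finset.range p, F (Multiplicative.ofAdd ((l : ℕ) : ZMod p)) = ∑ x : Cy p, F x := by
  refine Finset.sum_nbij' (fun l => (Multiplicative.ofAdd ((l : ℕ) : ZMod p) : Cy p))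
    (fun x => (Multiplicative.toAdd x).val) ?_ ?_ ?_ ?_ ?_
  · intro l _
    exact Finset.mem_univ _
  · intro x _
    exact Finset.mem_range.2 (ZMod.val_lt _)
  · intro l hl
    exact ZMod.val_cast_of_lt (Finset.mem_range.1 hl)
  · intro x _
    exact ZMod.natCast_zmod_val (Multiplicative.toAdd x)
  · intro l _
    rfl

theorem Sg_mid {p : ℕ} [Fact p.Prime] (F : Cy p → ZMod p) (h : ∑ x : Cy p, F x = 0) :
    ∃ G : Cy p → ZMod p, ∀ x, G ((Sg_t p)⁻¹ * x) - G x = F x := by
  refine ⟨fun x => - ∑ l ∈ Finset.range ((Multiplicative.toAdd x).val + 1),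
    F (Multiplicative.ofAdd ((l : ℕ) : ZMod p)), fun x => ?_⟩
  have e1 : Multiplicative.toAdd ((Sg_t p)⁻¹ * x) = Multiplicative.toAdd x - 1 := by
    show -(1 : ZMod p) + Multiplicative.toAdd x = _
    ring
  show - ∑ l ∈ Finset.range ((Multiplicative.toAdd ((Sg_t p)⁻¹ * x)).val + 1),
      F (Multiplicative.ofAdd ((l : ℕ) : ZMod p)) -
    - ∑ l ∈ Finset.range ((Multiplicative.toAdd x).val + 1),
      F (Multiplicative.ofAdd ((l : ℕ) : ZMod p)) = F x
  rw [e1]
  have ep : 1 < p := (Fact.out : p.Prime).one_lt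
  have hx : F (Multiplicative.ofAdd (((Multiplicative.toAdd x).val : ℕ) : ZMod p)) = F x := by
    rw [ZMod.natCast_zmod_val]
    rfl
  obtain ⟨m, hm⟩ : ∃ m, (Multiplicative.toAdd x).val = m := ⟨_, rfl⟩
  rcases Nat.eq_zero_or_pos m with h0 | h0
  · subst h0
    have hx0 : Multiplicative.toAdd x = 0 := (ZMod.val_eq_zero _).1 hm
    have e2 : (Multiplicative.toAdd x - 1).val + 1 = p := by
      rw [hx0, zero_sub, ZMod.neg_val]
      have : (1 : ZMod p).val = 1 := by
        have := ZMod.val_cast_of_lt ep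
        rwa [Nat.cast_one] at this
      rw [if_neg (one_ne_zero), this]
      omega
    rw [e2, Sg_range, h, hm, Finset.sum_range_one, ← hx, hm]
    simp
  · have e3 : (Multiplicative.toAdd x - 1).val + 1 = (Multiplicative.toAdd x).val := by
      have e4 : (Multiplicative.toAdd x - 1 : ZMod p) = ((m - 1 : ℕ) : ZMod p) := by
        rw [← ZMod.natCast_zmod_val (Multiplicative.toAdd x), hm, Nat.cast_sub h0, Nat.cast_one]
      have e5 : m < p := by rw [← hm]; exact ZMod.val_lt _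
      rw [e4, ZMod.val_cast_of_lt (by omega), hm]
      omega
    rw [e3, Finset.sum_range_succ _ (Multiplicative.toAdd x).val, hx]
    ring

theorem Sg_reidx {p : ℕ} [Fact p.Prime] (F : Cy p → ZMod p) (c : Cy p) :
    ∑ x : Cy p, F (c * x) = ∑ x : Cy p, F x :=
  Equiv.sum_comp (Equiv.mulLeft c) F

/-- the sum -/
noncomputable def Sg_sum (p : ℕ) [Fact p.Prime] (C : Type) [Group C] :
    FunR (Cy p) (Rep.trivial ℤ (C × Cy p) (ZMod p)) ⟶ Rep.trivial ℤ (C × Cy p) (ZMod p) :=
  Rep.ofHom ⟨{ toFun := fun F => (∑ x : Cy p, (show Cy p → ZMod p from F) x : ZMod p)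
               map_add' := by
                 intro F F'
                 exact Finset.sum_add_distrib
               map_smul' := by
                 intro r F
                 show ∑ x : Cy p, r • (show Cy p → ZMod p from F) x =
                   r • ∑ x : Cy p, (show Cy p → ZMod p from F) x
                 rw [Finset.smul_sum] }, by
    intro g
    apply LinearMap.ext
    intro F
    exact Sg_reidx (show Cy p → ZMod p from F) (g⁻¹).2⟩

/-- the difference as a linear map -/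
noncomputable def Sg_d (p : ℕ) [Fact p.Prime] : (Cy p → ZMod p) →ₗ[ℤ] (Cy p → ZMod p) where
  toFun F x := F ((Sg_t p)⁻¹ * x) - F x
  map_add' := by
    intro F F'
    funext x
    simp only [Pi.add_apply]
    ring
  map_smul' := by
    intro r F
    funext x
    simp only [Pi.smul_apply, RingHom.id_apply, smul_sub]

theorem Sg_d_cst (p : ℕ) [Fact p.Prime] : cst ℤ (Cy p) (ZMod p) ≤ LinearMap.ker (Sg_d p) := by
  rintro _ ⟨b, rfl⟩
  rw [LinearMap.mem_ker]
  funext x
  exact sub_self b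

/-- the difference on the quotient -/
noncomputable def Sg_a (p : ℕ) [Fact p.Prime] (C : Type) [Group C] :
    QB (Cy p) (Rep.trivial ℤ (C × Cy p) (ZMod p)) ⟶
      FunR (Cy p) (Rep.trivial ℤ (C × Cy p) (ZMod p)) :=
  Rep.ofHom ⟨(cst ℤ (Cy p) (ZMod p)).liftQ (Sg_d p) (Sg_d_cst p), by
    intro g
    apply LinearMap.ext
    intro z
    obtain ⟨F, rfl⟩ := Submodule.Quotient.mk_surjective _ z
    funext x
    show (show Cy p → ZMod p from F) ((g⁻¹).2 * ((Sg_t p)⁻¹ * x)) -
        (show Cy p → ZMod p from F) ((g⁻¹).2 * x) =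
      (show Cy p → ZMod p from F) ((Sg_t p)⁻¹ * ((g⁻¹).2 * x)) -
        (show Cy p → ZMod p from F) ((g⁻¹).2 * x)
    rw [mul_left_comm]⟩

theorem Sg_main (p : ℕ) [Fact p.Prime] (C : Type) [Group C] :
    ∃ (s : FunR (Cy p) (Rep.trivial ℤ (C × Cy p) (ZMod p)) ⟶ Rep.trivial ℤ (C × Cy p) (ZMod p))
      (a : QB (Cy p) (Rep.trivial ℤ (C × Cy p) (ZMod p)) ⟶
        FunR (Cy p) (Rep.trivial ℤ (C × Cy p) (ZMod p)))
      (w : a ≫ s = 0), (ShortComplex.mk a s w).ShortExact ∧
        QBi (Cy p) (Rep.trivial ℤ (C × Cy p) (ZMod p)) ≫ s = 0 := by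
  have w : Sg_a p C ≫ Sg_sum p C = 0 := by
    ext z
    obtain ⟨F, rfl⟩ := Submodule.Quotient.mk_surjective _ z
    show ∑ x : Cy p, ((show Cy p → ZMod p from F) ((Sg_t p)⁻¹ * x) -
      (show Cy p → ZMod p from F) x) = 0
    rw [Finset.sum_sub_distrib, Sg_reidx, sub_self]
  refine ⟨Sg_sum p C, Sg_a p C, w, VTop_shortExact _ ?_ ?_ ?_, ?_⟩
  · refine (injective_iff_map_eq_zero (Sg_a p C).hom).2 ?_
    intro z hz
    obtain ⟨F, rfl⟩ := Submodule.Quotient.mk_surjective _ z
    refine (Submodule.Quotient.mk_eq_zero (cst ℤ (Cy p) (ZMod p))).2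
      ⟨(show Cy p → ZMod p from F) 1, ?_⟩
    funext x
    refine Sg_const (show Cy p → ZMod p from F) (fun y => ?_) x
    have := congrFun (show (fun y : Cy p => (show Cy p → ZMod p from F) ((Sg_t p)⁻¹ * y) -
      (show Cy p → ZMod p from F) y) = (fun _ => 0) from hz) y
    exact sub_eq_zero.1 this
  · intro v
    refine ⟨(Pi.single (1 : Cy p) (show ZMod p from v) : Cy p → ZMod p), ?_⟩
    show ∑ x : Cy p, (Pi.single (1 : Cy p) (show ZMod p from v) : Cy p → ZMod p) x = v
    rw [Finset.sum_pi_single']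
    simp
  · intro F hF
    obtain ⟨G, hG⟩ := Sg_mid (show Cy p → ZMod p from F) hF
    exact ⟨(Submodule.Quotient.mk G : (Cy p → ZMod p) ⧸ cst ℤ (Cy p) (ZMod p)), funext hG⟩
  · ext b
    show ∑ x : Cy p, (show ZMod p from b) = 0
    rw [Finset.sum_const, Finset.card_univ]
    have : Fintype.card (Cy p) = p := by
      rw [Fintype.card_multiplicative, ZMod.card]
    rw [this, nsmul_eq_mul, CharP.cast_eq_zero, zero_mul]

end Pool.Agent.H5.ZP
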