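import Pool.Agent.H5.ZP.Co
import Pool.Agent.H5.ZP.Sg
import Pool.Agent.H5.ZP.Fl

/-!
Module Cp (row ZPCP).  `Π = C × Cy p`, `V` trivial `ZMod p`.  Use only the STATEMENTS of Co, Sg, Fl.
`Cp_main`: there is an injective additive map `H^j(Π;V) → H^(j+2)(Π;V)`.  `V` is `Rep.res (MonoidHom.fst _ _) (Rep.trivial ℤ C (ZMod p))` (`rfl`), so `Co_main` applies.
 δ1 : `H^(j+1)(QB) → H^(j+2)(V)` of `QSe_main (Cy p) V` (complex `QBS`) is injective: its kernel is the image of `H^(j+1)(FunR) → H^(j+1)(QB)` (`mapShortComplex₃_exact`), and `H^(j+1)(V) → H^(j+1)(FunR)` is onto (`Co_main`) with zero composition (`QBi ≫ QBp = 0`, functoriality `map_id_comp`).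
 δ2 : `H^j(V) → H^(j+1)(QB)` of `Sg_main` is injective: its kernel is the image of `H^j(s) : H^j(FunR) → H^j(V)`; every element of `H^j(FunR)` is `H^j(QBi) y`, and `H^j(s)(H^j(QBi) y) = H^j(QBi ≫ s) y = 0`.
`Cp_fst`: `H^j(C;V) → H^j(Π;V)` (inflation along `fst`, `groupCohomology.map (MonoidHom.fst C _) (𝟙 _) j`) is injective: restricting along `c ↦ (c,1)` gives the identity (`groupCohomology.map_comp`, `map_id`, `map_congr`).
`Cp_ft`: if `H^j(Π;V)` is finite for all `j ≥ J` then for all `j` (go up in steps of 2), so `H^j(C;V)` is finite for all `j`.   `Cp_nt`: `H^0(Π;V) ≅ V ≠ 0` (`groupCohomology.H0Iso`), then steps of 2.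
-/

set_option autoImplicit false
set_option linter.all false

namespace Pool.Agent.H5.ZP

open CategoryTheory CategoryTheory.Abelian CategoryTheory.Limits Pool.Agent.H5.CP Pool.Agent.H75.CP

theorem Cp_comp {k G : Type} [CommRing k] [Group G] {A B D : Rep.{0} k G} (f : A ⟶ B) (g : B ⟶ D)
    (h : f ≫ g = 0) (i : ℕ) (z : groupCohomology A i) :
    ((groupCohomology.functor k G i).map g).hom (((groupCohomology.functor k G i).map f).hom z) =
      0 := by
  have h1 : (groupCohomology.functor k G i).map f ≫ (groupCohomology.functor k G i).map g = 0 := by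
    rw [← CategoryTheory.Functor.map_comp, h]
    exact Functor.map_zero _ _ _
  have h2 := congrArg (fun t => ModuleCat.Hom.hom t z) h1
  exact h2

theorem Cp_inj {k G : Type} [CommRing k] [Group G] {S : ShortComplex (Rep.{0} k G)}
    (hS : S.ShortExact) (i : ℕ)
    (h : ∀ y, ((groupCohomology.functor k G i).map S.g).hom y = 0) :
    Function.Injective (groupCohomology.δ hS i (i + 1) rfl).hom := by
  refine (injective_iff_map_eq_zero _).2 fun x hx => ?_
  obtain ⟨y, hy⟩ := (ShortComplex.moduleCat_exact_iff _).1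
    (groupCohomology.mapShortComplex₃_exact hS (rfl : i + 1 = i + 1)) x hx
  exact hy.symm.trans (h y)

theorem Cp_main (p : ℕ) [Fact p.Prime] (C : Type) [Group C] (j : ℕ) :
    ∃ f : groupCohomology (Rep.trivial ℤ (C × Cy p) (ZMod p)) j →
        groupCohomology (Rep.trivial ℤ (C × Cy p) (ZMod p)) (j + 2), Function.Injective f := by
  obtain ⟨s, a, w, hS, hz⟩ := Sg_main p C
  have hco : ∀ i : ℕ, Function.Surjective ((groupCohomology.functor ℤ (C × Cy p) i).map
      (QBi (Cy p) (Rep.trivial ℤ (C × Cy p) (ZMod p)))).hom := fun i =>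
    Co_main (P := Cy p) (Rep.trivial ℤ C (ZMod p)) i
  have h2 : Function.Injective (groupCohomology.δ hS j (j + 1) rfl).hom := by
    refine Cp_inj hS j fun y => ?_
    obtain ⟨z, rfl⟩ := hco j y
    exact Cp_comp _ _ hz j z
  have h1 : Function.Injective
      (groupCohomology.δ (QSe_main (Cy p) (Rep.trivial ℤ (C × Cy p) (ZMod p)))
        (j + 1) (j + 2) rfl).hom := by
    refine Cp_inj _ (j + 1) fun y => ?_
    obtain ⟨z, rfl⟩ := hco (j + 1) y
    exact Cp_comp _ _ (QBS (Cy p) (Rep.trivial ℤ (C × Cy p) (ZMod p))).zero (j + 1) z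
  exact ⟨fun x => (groupCohomology.δ (QSe_main (Cy p) (Rep.trivial ℤ (C × Cy p) (ZMod p)))
        (j + 1) (j + 2) rfl).hom ((groupCohomology.δ hS j (j + 1) rfl).hom x),
    fun x y h => h2 (h1 h)⟩

theorem Cp_fst (p : ℕ) (C : Type) [Group C] (j : ℕ) :
    ∃ f : groupCohomology (Rep.trivial ℤ C (ZMod p)) j →
        groupCohomology (Rep.trivial ℤ (C × Cy p) (ZMod p)) j, Function.Injective f := by
  let A : Rep.{0} ℤ C := Rep.trivial ℤ C (ZMod p)
  let B : Rep.{0} ℤ (C × Cy p) := Rep.trivial ℤ (C × Cy p) (ZMod p)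
  let φ : Rep.res (MonoidHom.fst C (Cy p)) A ⟶ B := 𝟙 B
  let ψ : Rep.res (MonoidHom.inl C (Cy p)) B ⟶ A := 𝟙 A
  have h : groupCohomology.map (MonoidHom.fst C (Cy p)) φ j ≫
      groupCohomology.map (MonoidHom.inl C (Cy p)) ψ j = 𝟙 _ := by
    rw [← groupCohomology.map_comp, ← groupCohomology.map_id]
    refine groupCohomology.map_congr ?_ rfl j
    ext x
    rfl
  refine ⟨fun x => (groupCohomology.map (MonoidHom.fst C (Cy p)) φ j).hom x, fun x y hxy => ?_⟩
  have h1 : ∀ z : groupCohomology A j, (groupCohomology.map (MonoidHom.inl C (Cy p)) ψ j).hom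
      ((groupCohomology.map (MonoidHom.fst C (Cy p)) φ j).hom z) = z := fun z => by
    have := congrArg (fun t => ModuleCat.Hom.hom t z) h
    exact this
  rw [← h1 x, ← h1 y]
  exact congrArg _ hxy

theorem Cp_it (p : ℕ) [Fact p.Prime] (C : Type) [Group C] (j m : ℕ) :
    ∃ f : groupCohomology (Rep.trivial ℤ (C × Cy p) (ZMod p)) j →
        groupCohomology (Rep.trivial ℤ (C × Cy p) (ZMod p)) (j + 2 * m),
      Function.Injective f := by
  induction m with
  | zero => exact ⟨id, Function.injective_id⟩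
  | succ m ih =>
    obtain ⟨f, hf⟩ := ih
    obtain ⟨g, hg⟩ := Cp_main p C (j + 2 * m)
    exact ⟨fun x => g (f x), hg.comp hf⟩

theorem Cp_ft (p : ℕ) [Fact p.Prime] (C : Type) [Group C] (J : ℕ)
    (h : ∀ j, J ≤ j → Ft p (C × Cy p) j) (j : ℕ) : Ft p C j := by
  obtain ⟨f, hf⟩ := Cp_fst p C j
  obtain ⟨g, hg⟩ := Cp_it p C j J
  haveI : Finite (groupCohomology (Rep.trivial ℤ (C × Cy p) (ZMod p)) (j + 2 * J)) :=
    h (j + 2 * J) (by omega)
  exact Finite.of_injective _ (hg.comp hf)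

theorem Cp_zero (p : ℕ) [Fact p.Prime] (G : Type) [Group G] : Nt p G 0 := by
  let B : Rep.{0} ℤ G := Rep.trivial ℤ G (ZMod p)
  let e := (groupCohomology.H0Iso B).toLinearEquiv
  let a : ZMod p → B.ρ.invariants := fun b => ⟨b, fun g => rfl⟩
  have ha : Function.Injective a := fun x y h => congrArg Subtype.val h
  exact (e.symm.injective.comp ha).nontrivial

theorem Cp_nt (p : ℕ) [Fact p.Prime] (C : Type) [Group C] (m : ℕ) :
    Nt p (C × Cy p) (2 * m) := by
  obtain ⟨g, hg⟩ := Cp_it p C 0 m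
  haveI : Nontrivial (groupCohomology (Rep.trivial ℤ (C × Cy p) (ZMod p)) 0) :=
    Cp_zero p (C × Cy p)
  have h := hg.nontrivial
  rw [Nat.zero_add] at h
  exact h

end Pool.Agent.H5.ZP
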