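import Pool.Agent.H75.CP.DefsY

/-!
MP_37b730_gt, divisible chains (project MP_37b730_ZP, helper5): definitions.  Paper proof: /team-store/H5_37b730_ZP.md.

Everything is over `ℤ` with coefficients in the trivial module `ZMod p`.
-/

set_option autoImplicit false
set_option linter.all false

namespace Pool.Agent.H5.ZP

open CategoryTheory CategoryTheory.Abelian CategoryTheory.Limits Pool.Agent.H5.CP Pool.Agent.H75.CP

/-- `H^j(G; ℤ/p)` is finite -/
def Ft (p : ℕ) (G : Type) [Group G] (j : ℕ) : Prop :=
  Finite (groupCohomology (Rep.trivial ℤ G (ZMod p)) j)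

/-- `H^j(G; ℤ/p) ≠ 0` -/
def Nt (p : ℕ) (G : Type) [Group G] (j : ℕ) : Prop :=
  Nontrivial (groupCohomology (Rep.trivial ℤ G (ZMod p)) j)

/-- the cyclic group of order `p`, written multiplicatively -/
abbrev Cy (p : ℕ) : Type := Multiplicative (ZMod p)

/-- `C × P` acts on `P` by left multiplication with the second component -/
instance instActSnd {C P : Type} [Group C] [Group P] : MulAction (C × P) P where
  smul g x := g.2 * x
  one_smul x := one_mul x
  mul_smul g h x := mul_assoc _ _ _

theorem snd_smul {C P : Type} [Group C] [Group P] (g : C × P) (x : P) : g • x = g.2 * x := rfl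

end Pool.Agent.H5.ZP
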