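import Pool.Agent.H5.ZP.Defs

/-!
Module Gp (row ZPGP, pure group theory).  `E : CX H G`, `u ∈ H` with `u^p = t`, `C = C_H(u)`.
`C × Cy p → Stab_G(u)`, `(c, ofAdd i) ↦ π(c) π(u)^(-i)`: well defined since `π(u)^p = π(t) = 1` (e.g. `ZMod.lift`/`zmultiplesHom`, or `MonoidHom.coprod`/`noncommCoprod` of `π|C` and the hom `Cy p → G`, `ofAdd i ↦ π(u)^(-i.val)`; `π(u)` commutes with `π(c)`).
Values fix `u`: `CX.Y0_smul` (`c u c⁻¹ = u`).  Central element `τ = (u, ofAdd 1)`; `τ^p = (t, 1)`, so infinite order.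
Onto: `g` fixes `u`: with `h = E.s g`: `h u h⁻¹ = u`, `h ∈ C`, `g = π(h)`.
Kernel: `π(c) = π(u)^i` gives `c = u^i t^m = u^(i+pm)` and `(c, ofAdd i) = τ^(i+pm)`; conversely `τ ↦ π(u) π(u)⁻¹ = 1`.
-/

set_option autoImplicit false
set_option linter.all false

namespace Pool.Agent.H5.ZP

open CategoryTheory CategoryTheory.Abelian CategoryTheory.Limits Pool.Agent.H5.CP Pool.Agent.H75.CP

/-- `u` in its centraliser -/
def Gp_u {H G : Type} [Group H] [Group G] (E : CX H G) (p : ℕ) (u : E.Y0 p) :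
    (Subgroup.centralizer {u.1} : Subgroup H) :=
  ⟨u.1, Subgroup.mem_centralizer_singleton_iff.2 rfl⟩

lemma Gp_u_comm {H G : Type} [Group H] [Group G] (E : CX H G) (p : ℕ) (u : E.Y0 p)
    (c : (Subgroup.centralizer {u.1} : Subgroup H)) : c * Gp_u E p u = Gp_u E p u * c := by
  apply Subtype.ext
  have h := Subgroup.mem_centralizer_singleton_iff.1 c.2
  show c.1 * u.1 = u.1 * c.1
  first
    | exact h
    | exact h.symm

lemma Gp_inf {H G : Type} [Group H] [Group G] (E : CX H G) (p : ℕ) (u : E.Y0 p) (n : ℤ)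
    (h : u.1 ^ n = 1) : n = 0 := by
  apply E.inf
  rw [← u.2, ← zpow_natCast, ← zpow_mul, mul_comm, zpow_mul, h, one_zpow]

lemma Gp_stab {H G : Type} [Group H] [Group G] (E : CX H G) (p : ℕ) (u : E.Y0 p)
    (c : (Subgroup.centralizer {u.1} : Subgroup H)) : E.π c.1 ∈ MulAction.stabilizer G u := by
  rw [MulAction.mem_stabilizer_iff]
  apply Subtype.ext
  rw [E.Y0_smul]
  have h : c.1 * u.1 = u.1 * c.1 := congrArg Subtype.val (Gp_u_comm E p u c)
  rw [h, mul_inv_cancel_right]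

/-- `π` on the centraliser -/
def Gp_phi {H G : Type} [Group H] [Group G] (E : CX H G) (p : ℕ) (u : E.Y0 p) :
    (Subgroup.centralizer {u.1} : Subgroup H) →* MulAction.stabilizer G u where
  toFun c := ⟨E.π c.1, Gp_stab E p u c⟩
  map_one' := Subtype.ext (map_one E.π)
  map_mul' a b := Subtype.ext (map_mul E.π a.1 b.1)

lemma Gp_phi_pow {H G : Type} [Group H] [Group G] (E : CX H G) (p : ℕ) (u : E.Y0 p) :
    (Gp_phi E p u (Gp_u E p u)) ^ p = 1 := by
  apply Subtype.ext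
  show (E.π u.1) ^ p = 1
  rw [← map_pow, u.2]
  exact (E.ker _).2 ⟨1, (zpow_one _).symm⟩

/-- `ofAdd i ↦ U^(-i)` -/
noncomputable def Gp_psi {S : Type} [Group S] (p : ℕ) (U : S) (hU : U ^ p = 1) : Cy p →* S :=
  AddMonoidHom.toMultiplicativeLeft
    (ZMod.lift p (⟨zmultiplesHom (Additive S) (Additive.ofMul U⁻¹), by
      rw [zmultiplesHom_apply, natCast_zsmul, ← ofMul_pow, inv_pow, hU, inv_one, ofMul_one]⟩ :
      {f : ℤ →+ Additive S // f p = 0}))

lemma Gp_psi_int {S : Type} [Group S] (p : ℕ) (U : S) (hU : U ^ p = 1) (m : ℤ) :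
    Gp_psi p U hU (Multiplicative.ofAdd (m : ZMod p)) = U⁻¹ ^ m := by
  show Additive.toMul (ZMod.lift p _ ((m : ZMod p))) = _
  rw [ZMod.lift_coe]
  show Additive.toMul (m • Additive.ofMul U⁻¹) = _
  rfl

lemma Gp_int (p : ℕ) [Fact p.Prime] (x : Cy p) : ∃ m : ℤ, x = Multiplicative.ofAdd (m : ZMod p) := by
  obtain ⟨m, hm⟩ := ZMod.intCast_surjective (Multiplicative.toAdd x)
  exact ⟨m, by rw [hm]; rfl⟩

lemma Gp_comm {H G : Type} [Group H] [Group G] (E : CX H G) (p : ℕ) [Fact p.Prime] (u : E.Y0 p)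
    (c : (Subgroup.centralizer {u.1} : Subgroup H)) (x : Cy p) :
    Commute (Gp_phi E p u c) (Gp_psi p (Gp_phi E p u (Gp_u E p u)) (Gp_phi_pow E p u) x) := by
  obtain ⟨m, rfl⟩ := Gp_int p x
  rw [Gp_psi_int]
  apply Commute.zpow_right
  apply Commute.inv_right
  show _ * _ = _ * _
  rw [← map_mul, ← map_mul, Gp_u_comm]

/-- the homomorphism `C × C_p → Stab(u)` -/
noncomputable def Gp_hom {H G : Type} [Group H] [Group G] (E : CX H G) (p : ℕ) [Fact p.Prime]
    (u : E.Y0 p) :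
    ((Subgroup.centralizer {u.1} : Subgroup H) × Cy p) →* MulAction.stabilizer G u :=
  MonoidHom.noncommCoprod (Gp_phi E p u)
    (Gp_psi p (Gp_phi E p u (Gp_u E p u)) (Gp_phi_pow E p u)) (Gp_comm E p u)

lemma Gp_hom_apply {H G : Type} [Group H] [Group G] (E : CX H G) (p : ℕ) [Fact p.Prime]
    (u : E.Y0 p) (c : (Subgroup.centralizer {u.1} : Subgroup H)) (m : ℤ) :
    Gp_hom E p u (c, Multiplicative.ofAdd (m : ZMod p)) =
      Gp_phi E p u (c * (Gp_u E p u) ^ (-m)) := by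
  have h1 : Gp_hom E p u (c, Multiplicative.ofAdd (m : ZMod p)) = Gp_phi E p u c *
      Gp_psi p (Gp_phi E p u (Gp_u E p u)) (Gp_phi_pow E p u)
        (Multiplicative.ofAdd (m : ZMod p)) := rfl
  rw [h1, Gp_psi_int, map_mul, map_zpow, zpow_neg, inv_zpow]

lemma Gp_tau {H G : Type} [Group H] [Group G] (E : CX H G) (p : ℕ) [Fact p.Prime]
    (u : E.Y0 p) (n : ℤ) :
    ((Gp_u E p u, Multiplicative.ofAdd (1 : ZMod p)) :
      (Subgroup.centralizer {u.1} : Subgroup H) × Cy p) ^ n =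
      ((Gp_u E p u) ^ n, Multiplicative.ofAdd (n : ZMod p)) := by
  rw [Prod.pow_mk, ← ofAdd_zsmul, zsmul_one]

theorem Gp_main {H G : Type} [Group H] [Group G] (E : CX H G) (p : ℕ) [Fact p.Prime]
    (u : E.Y0 p) :
    Nonempty (CX ((Subgroup.centralizer {u.1} : Subgroup H) × Cy p) (MulAction.stabilizer G u)) := by
  refine ⟨⟨Gp_hom E p u, (Gp_u E p u, Multiplicative.ofAdd (1 : ZMod p)), ?_, ?_, ?_, ?_⟩⟩
  · intro g
    have h1 : E.s g.1 * u.1 * (E.s g.1)⁻¹ = u.1 := by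
      have h2 : (E.π (E.s g.1) • u : E.Y0 p).1 = E.s g.1 * u.1 * (E.s g.1)⁻¹ := E.Y0_smul p _ u
      rw [← h2, E.π_s]
      exact congrArg Subtype.val g.2
    have h3 : E.s g.1 * u.1 = u.1 * E.s g.1 := by
      rw [mul_inv_eq_iff_eq_mul] at h1
      exact h1
    have h4 : E.s g.1 ∈ (Subgroup.centralizer {u.1} : Subgroup H) := by
      rw [Subgroup.mem_centralizer_singleton_iff]
      first
        | exact h3
        | exact h3.symm
    refine ⟨(⟨E.s g.1, h4⟩, Multiplicative.ofAdd ((0 : ℤ) : ZMod p)), ?_⟩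
    rw [Gp_hom_apply, neg_zero, zpow_zero, mul_one]
    exact Subtype.ext (E.π_s g.1)
  · rintro ⟨c, x⟩
    obtain ⟨m, rfl⟩ := Gp_int p x
    rw [Gp_hom_apply]
    constructor
    · intro h
      have h1 : E.π ((c * (Gp_u E p u) ^ (-m) : (Subgroup.centralizer {u.1} : Subgroup H)) : H) = 1 :=
        congrArg Subtype.val h
      obtain ⟨k, hk⟩ := (E.ker _).1 h1
      have h2 : c.1 * u.1 ^ (-m) = E.t ^ k := by
        rw [← hk]
        rfl
      have h3 : c.1 = u.1 ^ (m + p * k) := by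
        have h4 : E.t ^ k = u.1 ^ ((p : ℤ) * k) := by
          rw [zpow_mul, zpow_natCast]
          exact congrArg (fun y : H => y ^ k) u.2.symm
        rw [add_comm, zpow_add, ← h4, ← h2, zpow_neg, inv_mul_cancel_right]
      refine ⟨m + p * k, ?_⟩
      rw [Gp_tau]
      refine Prod.ext (Subtype.ext h3) ?_
      show Multiplicative.ofAdd (m : ZMod p) = Multiplicative.ofAdd ((m + p * k : ℤ) : ZMod p)
      congr 1
      push_cast
      rw [ZMod.natCast_self, zero_mul, add_zero]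
    · rintro ⟨n, hn⟩
      rw [Gp_tau] at hn
      have h1 : c = (Gp_u E p u) ^ n := congrArg Prod.fst hn
      have h2 : ((m : ℤ) : ZMod p) = (n : ZMod p) := congrArg Prod.snd hn
      obtain ⟨k, hk⟩ := (ZMod.intCast_eq_intCast_iff_dvd_sub m n p).1 h2
      have h3 : c * (Gp_u E p u) ^ (-m) = (Gp_u E p u) ^ ((p : ℤ) * k) := by
        rw [h1, ← zpow_add, ← hk]
        rfl
      rw [h3, zpow_mul, zpow_natCast, map_zpow, map_pow, Gp_phi_pow, one_zpow]
  · rw [Subgroup.mem_center_iff]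
    rintro ⟨c, x⟩
    rw [Prod.mk_mul_mk, Prod.mk_mul_mk, Gp_u_comm, mul_comm x]
  · intro n hn
    rw [Gp_tau] at hn
    have h1 : (Gp_u E p u) ^ n = 1 := congrArg Prod.fst hn
    exact Gp_inf E p u n (congrArg Subtype.val h1)

/-- `u` is central of infinite order in its centraliser -/
theorem Gp_cx {H G : Type} [Group H] [Group G] (E : CX H G) (p : ℕ) [Fact p.Prime]
    (u : E.Y0 p) :
    ∃ (L : Type) (_ : Group L) (E₁ : CX (Subgroup.centralizer {u.1} : Subgroup H) L),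
      (E₁.t : H) = u.1 := by
  have hc : Gp_u E p u ∈ Subgroup.center (Subgroup.centralizer {u.1} : Subgroup H) :=
    Subgroup.mem_center_iff.2 fun c => Gp_u_comm E p u c
  have hN : (Subgroup.zpowers (Gp_u E p u)).Normal := by
    refine ⟨fun n hn g => ?_⟩
    have h1 : n ∈ Subgroup.center (Subgroup.centralizer {u.1} : Subgroup H) :=
      (Subgroup.zpowers_le.2 hc) hn
    rw [Subgroup.mem_center_iff.1 h1 g, mul_inv_cancel_right]
    exact hn
  refine ⟨(Subgroup.centralizer {u.1} : Subgroup H) ⧸ Subgroup.zpowers (Gp_u E p u),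
    QuotientGroup.Quotient.group _,
    ⟨QuotientGroup.mk' _, Gp_u E p u, QuotientGroup.mk'_surjective _, ?_, hc, ?_⟩, rfl⟩
  · intro x
    rw [QuotientGroup.mk'_apply, QuotientGroup.eq_one_iff, Subgroup.mem_zpowers_iff]
    constructor
    · rintro ⟨k, hk⟩
      exact ⟨k, hk.symm⟩
    · rintro ⟨k, hk⟩
      exact ⟨k, hk.symm⟩
  · intro n hn
    exact Gp_inf E p u n (congrArg Subtype.val hn)

end Pool.Agent.H5.ZP
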