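import Pool.Agent.H5.ZP.Qe
import Pool.Agent.H5.ZP.Ax
import Pool.Agent.H5.CP.ABs
import Pool.Agent.H5.CP.TRegC
import Pool.Agent.H5.CP.RGys

/-!
Module Gy (row ZPGY).  Gysin sequence, finiteness.  `E : CX H G`, `t = E.t` central of infinite order, `S = ⟨t⟩`, `G ≅ H/S` (`QuotientGroup.quotientKerEquivOfSurjective`-like; `Fl_iso`).  `V = ZMod p` trivial (a finite module for `p ≠ 0`), `I = kernel (aug ℤ H)`, `J = kernel (aug ℤ (H/S))`,
`E_ = (QF ℤ S).obj I`, `0 → ℤ → E_ → J → 0` exact (`ABs_main`), `Ext_H^n(I, V) ≃ Ext_{H/S}^n(E_, V)` (`Qe_main`, class `TRegC_main`, `AugE_ker`; `V` over `H` is `(Infl ℤ S).obj` of `V` over `H/S`, by `rfl` as in H5/CP/RGys.lean).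
`Gy_up`: `Ft (j)`, `Ft (j+1)` for `H/S` give `Ext^j(ℤ,V)`, `Ext^j(J,V)` finite (`Ax_main`), so `Ext^j(E_,V)` (`Fl_e2`), so `Ext_H^j(I,V)`, so `Ext_H^(j+1)(ℤ,V)` (`Ax_main`).
`Gy_down`: strong induction on `j`.  `j = 0`: `Ax_zero`.  `j = 1`: by `Ax_main` it is enough that `Ext^0(J,V)` is finite: it embeds in `Ext^0(E_,V)` (composition with the epimorphism `E_ → J`, `Ext.homEquiv₀`), and `Ext^0(E_,V) ≃ Ext_H^0(I,V)` is finite (`Ax_main`, `Ft p H 1`).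
 `j + 2`: by `Ax_main` enough: `Ext^(j+1)(J,V)` finite: `Fl_e3` with `Ext^j(ℤ,V)` (induction) and `Ext^(j+1)(E_,V) ≃ Ext_H^(j+1)(I,V)`, finite by `Ft p H (j+2)`.
`Gy_zero`: if `H^j(G;V) = 0` and `H^(j+1)(G;V) = 0` then `H^(j+1)(H;V) = 0`, `j ≥ 1`: same sequence, with `rgys_up`, `rgys_down`, `QRes_main` (`s = 1`) exactly as in the proof of `RGys_main` (H5/CP/RGys.lean), which only uses the two degrees.
-/

set_option autoImplicit false
set_option linter.all false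

namespace Pool.Agent.H5.ZP

open CategoryTheory CategoryTheory.Abelian CategoryTheory.Limits Pool.Agent.H5.CP Pool.Agent.H75.CP

theorem Gy_fin (p : ℕ) [Fact p.Prime] (K : Type) [Group K] :
    Finite (Rep.trivial ℤ K (ZMod p)).V :=
  inferInstanceAs (Finite (ZMod p))

theorem Gy_normal {H G : Type} [Group H] [Group G] (E : CX H G) :
    (Subgroup.zpowers E.t).Normal := by
  refine ⟨fun n hn g => ?_⟩
  obtain ⟨m, rfl⟩ := Subgroup.mem_zpowers_iff.1 hn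
  have hc : g * E.t = E.t * g := Subgroup.mem_center_iff.1 E.cent g
  have h1 : Commute g (E.t ^ m) := (show Commute g E.t from hc).zpow_right m
  have h2 : g * E.t ^ m * g⁻¹ = E.t ^ m := by
    rw [h1.eq, mul_assoc, mul_inv_cancel, mul_one]
  rw [h2]
  exact hn

theorem Gy_equiv {H G : Type} [Group H] [Group G] (E : CX H G)
    [(Subgroup.zpowers E.t).Normal] : Nonempty ((H ⧸ Subgroup.zpowers E.t) ≃* G) := by
  have hk : Subgroup.zpowers E.t = E.π.ker := by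
    ext x
    rw [MonoidHom.mem_ker, E.ker, Subgroup.mem_zpowers_iff]
    constructor
    · rintro ⟨n, hn⟩
      exact ⟨n, hn.symm⟩
    · rintro ⟨n, hn⟩
      exact ⟨n, hn.symm⟩
  exact ⟨(QuotientGroup.quotientMulEquivOfEq hk).trans
    (QuotientGroup.quotientKerEquivOfSurjective E.π E.surj)⟩

theorem Gy_ft {H G : Type} [Group H] [Group G] (E : CX H G)
    [(Subgroup.zpowers E.t).Normal] (p j : ℕ) :
    Ft p G j ↔ Ft p (H ⧸ Subgroup.zpowers E.t) j := by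
  obtain ⟨e⟩ := Gy_equiv E
  obtain ⟨f⟩ := Fl_iso e p j
  unfold Ft
  constructor
  · intro h
    exact Finite.of_equiv _ f.symm
  · intro h
    exact Finite.of_equiv _ f

theorem Gy_nt {H G : Type} [Group H] [Group G] (E : CX H G)
    [(Subgroup.zpowers E.t).Normal] (p j : ℕ) :
    Nt p G j ↔ Nt p (H ⧸ Subgroup.zpowers E.t) j := by
  obtain ⟨e⟩ := Gy_equiv E
  obtain ⟨f⟩ := Fl_iso e p j
  unfold Nt
  exact (Equiv.nontrivial_congr f).symm

theorem Gy_iso {H : Type} [Group H] (p : ℕ) (t : H)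
    (hc : t ∈ Subgroup.center H) (ht : ∀ n : ℤ, t ^ n = 1 → n = 0)
    [(Subgroup.zpowers t).Normal] (n : ℕ) :
    Nonempty (Ext (kernel (aug ℤ H)) (Rep.trivial ℤ H (ZMod p)) n ≃
      Ext ((QF ℤ (Subgroup.zpowers t)).obj (kernel (aug ℤ H)))
        (Rep.trivial ℤ (H ⧸ Subgroup.zpowers t) (ZMod p)) n) := by
  obtain ⟨C, hC⟩ := TRegC_main ℤ t hc ht
  have hI : C.P (kernel (aug ℤ H)) := (hC _).2 (AugE_ker t ht)
  exact Qe_main C (kernel (aug ℤ H)) hI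
    (Rep.trivial ℤ (H ⧸ Subgroup.zpowers t) (ZMod p)) n

theorem Gy_finiso {H : Type} [Group H] (p : ℕ) (t : H)
    (hc : t ∈ Subgroup.center H) (ht : ∀ n : ℤ, t ^ n = 1 → n = 0)
    [(Subgroup.zpowers t).Normal] (n : ℕ) :
    Finite (Ext (kernel (aug ℤ H)) (Rep.trivial ℤ H (ZMod p)) n) ↔
      Finite (Ext ((QF ℤ (Subgroup.zpowers t)).obj (kernel (aug ℤ H)))
        (Rep.trivial ℤ (H ⧸ Subgroup.zpowers t) (ZMod p)) n) := by
  obtain ⟨f⟩ := Gy_iso p t hc ht n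
  exact Equiv.finite_iff f

theorem Gy_up_aux {H : Type} [Group H] (p : ℕ) [Fact p.Prime] (t : H)
    (hc : t ∈ Subgroup.center H) (ht : ∀ n : ℤ, t ^ n = 1 → n = 0)
    [(Subgroup.zpowers t).Normal] (j : ℕ)
    (h0 : Ft p (H ⧸ Subgroup.zpowers t) j) (h1 : Ft p (H ⧸ Subgroup.zpowers t) (j + 1)) :
    Ft p H (j + 1) := by
  have f1 := Gy_fin p H
  have f2 := Gy_fin p (H ⧸ Subgroup.zpowers t)
  rw [Fl_ext] at h0 h1 ⊢
  obtain ⟨ι, a, w, hS⟩ := ABs_main ℤ t hc ht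
  have hJ := (Ax_main (Rep.trivial ℤ (H ⧸ Subgroup.zpowers t) (ZMod p)) j).2 h1
  have hE := Fl_e2 hS (Rep.trivial ℤ (H ⧸ Subgroup.zpowers t) (ZMod p)) j h0 hJ
  exact (Ax_main (Rep.trivial ℤ H (ZMod p)) j).1 ((Gy_finiso p t hc ht j).2 hE)

theorem Gy_down_aux {H : Type} [Group H] (p : ℕ) [Fact p.Prime] (t : H)
    (hc : t ∈ Subgroup.center H) (ht : ∀ n : ℤ, t ^ n = 1 → n = 0)
    [(Subgroup.zpowers t).Normal] (h : ∀ j, Ft p H j) (j : ℕ) :
    Ft p (H ⧸ Subgroup.zpowers t) j := by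
  have f1 := Gy_fin p H
  have f2 := Gy_fin p (H ⧸ Subgroup.zpowers t)
  have hE : ∀ n, Finite (Ext ((QF ℤ (Subgroup.zpowers t)).obj (kernel (aug ℤ H)))
        (Rep.trivial ℤ (H ⧸ Subgroup.zpowers t) (ZMod p)) n) := by
    intro n
    have h1 := (Fl_ext p (n + 1)).1 (h (n + 1))
    exact (Gy_finiso p t hc ht n).1 ((Ax_main (Rep.trivial ℤ H (ZMod p)) n).2 h1)
  obtain ⟨ι, a, w, hS⟩ := ABs_main ℤ t hc ht
  induction j using Nat.strong_induction_on with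
  | _ j ih =>
    rcases j with _ | j
    · rw [Fl_ext]
      exact Ax_zero _
    · rw [Fl_ext]
      apply (Ax_main (Rep.trivial ℤ (H ⧸ Subgroup.zpowers t) (ZMod p)) j).1
      rcases j with _ | j
      · have hf := hE 0
        have hf2 : Finite ((QF ℤ (Subgroup.zpowers t)).obj (kernel (aug ℤ H)) ⟶
            Rep.trivial ℤ (H ⧸ Subgroup.zpowers t) (ZMod p)) :=
          Finite.of_equiv _ Ext.homEquiv₀
        have he : Epi a := hS.epi_g
        have hf3 : Finite (kernel (aug ℤ (H ⧸ Subgroup.zpowers t)) ⟶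
            Rep.trivial ℤ (H ⧸ Subgroup.zpowers t) (ZMod p)) := by
          refine Finite.of_injective (fun g => a ≫ g) ?_
          intro g1 g2 hg
          exact (cancel_epi a).1 hg
        exact Finite.of_equiv _ Ext.homEquiv₀.symm
      · have h1 := (Fl_ext p j).1 (ih j (by omega))
        exact Fl_e3 hS (Rep.trivial ℤ (H ⧸ Subgroup.zpowers t) (ZMod p)) j h1 (hE (j + 1))

theorem Gy_nt_ext {G : Type} [Group G] (p j : ℕ) :
    ¬ Nt p G j ↔ ∀ e : Ext (Rep.trivial ℤ G ℤ) (Rep.trivial ℤ G (ZMod p)) j, e = 0 := by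
  rw [← ExB_zero, ModuleCat.isZero_iff_subsingleton]
  unfold Nt
  exact not_nontrivial_iff_subsingleton

theorem Gy_zero_aux {H : Type} [Group H] (p : ℕ) [Fact p.Prime] (t : H)
    (hc : t ∈ Subgroup.center H) (ht : ∀ n : ℤ, t ^ n = 1 → n = 0)
    [(Subgroup.zpowers t).Normal] (m : ℕ)
    (h0 : ¬ Nt p (H ⧸ Subgroup.zpowers t) (m + 1))
    (h1 : ¬ Nt p (H ⧸ Subgroup.zpowers t) (m + 2)) : ¬ Nt p H (m + 2) := by
  rw [Gy_nt_ext] at h0 h1 ⊢
  apply rgys_up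
  obtain ⟨C, hC⟩ := TRegC_main ℤ t hc ht
  have hI : C.P (kernel (aug ℤ H)) := (hC _).2 (AugE_ker t ht)
  have key := QRes_main C (kernel (aug ℤ H)) hI
    (Rep.trivial ℤ (H ⧸ Subgroup.zpowers t) (ZMod p)) (m + 1) 1
  have hE : ∀ e : Ext ((QF ℤ (Subgroup.zpowers t)).obj (kernel (aug ℤ H)))
      (Rep.trivial ℤ (H ⧸ Subgroup.zpowers t) (ZMod p)) (m + 1), 1 • e = 0 := by
    intro e
    rw [one_smul]
    obtain ⟨ι, a, w, hS⟩ := ABs_main ℤ t hc ht
    have h2 : (Ext.mk₀ ι).comp e (zero_add (m + 1)) = 0 := h0 _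
    obtain ⟨x, hx⟩ := Ext.contravariant_sequence_exact₂ hS _ e h2
    have hx0 : x = 0 := rgys_down _ m h1 x
    rw [← hx, hx0, Ext.comp_zero]
  intro e
  have h3 := key.2 hE e
  exact (one_nsmul e).symm.trans h3

theorem Gy_up {H G : Type} [Group H] [Group G] (E : CX H G) (p : ℕ) [Fact p.Prime] (j : ℕ)
    (h0 : Ft p G j) (h1 : Ft p G (j + 1)) : Ft p H (j + 1) := by
  have hn := Gy_normal E
  exact Gy_up_aux p E.t E.cent E.inf j ((Gy_ft E p j).1 h0) ((Gy_ft E p (j + 1)).1 h1)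

theorem Gy_down {H G : Type} [Group H] [Group G] (E : CX H G) (p : ℕ) [Fact p.Prime]
    (h : ∀ j, Ft p H j) (j : ℕ) : Ft p G j := by
  have hn := Gy_normal E
  exact (Gy_ft E p j).2 (Gy_down_aux p E.t E.cent E.inf h j)

theorem Gy_zero {H G : Type} [Group H] [Group G] (E : CX H G) (p : ℕ) [Fact p.Prime] (j : ℕ)
    (h0 : ¬ Nt p G (j + 1)) (h1 : ¬ Nt p G (j + 2)) : ¬ Nt p H (j + 2) := by
  have hn := Gy_normal E
  rw [Gy_nt E] at h0 h1
  exact Gy_zero_aux p E.t E.cent E.inf j h0 h1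

end Pool.Agent.H5.ZP
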