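import Pool.Agent.H5.ZP.St
import Pool.Agent.H5.CP.SubC

/-!
Module In (row ZPIN).  Use only the STATEMENTS of St, Gy, Gp, SubC.  Finitely many conjugacy classes of `p^k`-th roots of `t`.  Induction on `k`, for all `H, G, E`.
`k = 0`: `T = {t}`, `x = 1`.   `k + 1`: `R` from `St_main`.  For `v ∈ R`: `C = C_H(v)`, `Gp_cx`: `E₁ : CX C L` with central element `v`; `CD (ZMod p) C n` (`SubC_main`), `Ft p L j` for all `j` (`Gy_down`); by induction a finite `T_v ⊆ C` for the `p^k`-th roots of `v` in `C`.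
`u^(p^(k+1)) = t`: `w = u^(p^k)` has `w^p = t` (`pow_succ`, `pow_mul`), `x w x⁻¹ = v ∈ R`; `u' = x u x⁻¹` has `u'^(p^k) = v` (`conj_pow`), so `u'` commutes with `v`, `u' ∈ C`; some `y ∈ C` has `y u' y⁻¹ ∈ T_v`.  `T = ⋃_(v ∈ R) T_v` (images in `H`), conjugate by `y x`.
-/

set_option autoImplicit false
set_option linter.all false

namespace Pool.Agent.H5.ZP

open CategoryTheory CategoryTheory.Abelian CategoryTheory.Limits Pool.Agent.H5.CP Pool.Agent.H75.CP

theorem In_main (p : ℕ) [Fact p.Prime] (k : ℕ) {H G : Type} [Group H] [Group G] (E : CX H G)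
    (n J : ℕ) (hH : CD (ZMod p) H n) (hf : ∀ j, J ≤ j → Ft p G j) :
    ∃ T : Set H, T.Finite ∧ ∀ u : H, u ^ (p ^ k) = E.t → ∃ x : H, x * u * x⁻¹ ∈ T := by
  classical
  induction k generalizing H G J with
  | zero =>
    refine ⟨{E.t}, Set.finite_singleton _, fun u hu => ⟨1, ?_⟩⟩
    rw [pow_zero, pow_one] at hu
    rw [one_mul, inv_one, mul_one, hu]
    exact Set.mem_singleton _
  | succ k ih =>
    obtain ⟨R, hRf, hR, hRc⟩ := St_main E p n J hH hf
    have key : ∀ v : E.Y0 p, ∃ T : Set H, T.Finite ∧ (v ∈ R → ∀ u : H,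
        u ∈ (Subgroup.centralizer {v.1} : Subgroup H) → u ^ (p ^ k) = v.1 →
        ∃ x : H, x * u * x⁻¹ ∈ T) := by
      intro v
      by_cases hv : v ∈ R
      · obtain ⟨L, iL, E₁, ht⟩ := Gp_cx E p v
        obtain ⟨T, hT, hT2⟩ := ih E₁ 0 (SubC_main n hH _)
          (fun j _ => Gy_down E₁ p (hRc v hv) j)
        refine ⟨Subtype.val '' T, hT.image _, fun _ u hu huv => ?_⟩
        obtain ⟨x, hx⟩ := hT2 ⟨u, hu⟩ (by
          apply Subtype.ext
          have h5 : ((⟨u, hu⟩ : (Subgroup.centralizer {v.1} : Subgroup H)) ^ p ^ k).1 = u ^ p ^ k := rfl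
          exact h5.trans (huv.trans ht.symm))
        exact ⟨x.1, ⟨_, hx, rfl⟩⟩
      · exact ⟨∅, Set.finite_empty, fun h => absurd h hv⟩
    choose T hTf hT using key
    refine ⟨⋃ v ∈ R, T v, hRf.biUnion fun v _ => hTf v, fun u hu => ?_⟩
    obtain ⟨x, v, hv, hxv⟩ := hR (u ^ (p ^ k)) (by rw [← pow_mul, ← pow_succ, hu])
    have h1 : (x * u * x⁻¹) ^ (p ^ k) = v.1 := by rw [conj_pow, hxv]
    have h2 : x * u * x⁻¹ ∈ (Subgroup.centralizer {v.1} : Subgroup H) := by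
      rw [Subgroup.mem_centralizer_singleton_iff, ← h1]
      exact (Commute.self_pow _ _).eq
    obtain ⟨y, hy⟩ := hT v hv _ h2 h1
    refine ⟨y * x, Set.mem_biUnion hv ?_⟩
    have h3 : y * x * u * (y * x)⁻¹ = y * (x * u * x⁻¹) * y⁻¹ := by group
    rw [h3]
    exact hy

end Pool.Agent.H5.ZP
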