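import Pool.Agent.H5.ZP.Defs
import Pool.Agent.H5.CP.QRes

/-!
Module Qe (row ZPQE).  `Ext_G(M, Infl N) ≅ Ext_{G/S}(M_S, N)` as sets, for `M` in a class `C` on which the coinvariants are exact.  Same induction as `QRes_main` (H5/CP/QRes.lean), with bijections instead of annihilators.
`n = 0`: `Ext.homEquiv₀` (`Ext.addEquiv₀`) and the adjunction (`QAdj_main`) : `Hom((QF).obj M, N) ≃ Hom(M, Infl N)`.
Let `0 → K → F → M → 0`, `F` projective, `0 → K_S → F_S → M_S → 0` (exact by `QEx_main`, `F_S` projective by `QAdj_proj`, `C.ker`).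
`n = 1`: `f ↦ extClass.comp (mk₀ f)` maps `Hom(K, A)` onto `Ext¹(M, A)` (`Ext.contravariant_sequence_exact₃`, `Ext¹(F,A) = 0`), and `f, g` have the same image iff `f - g` extends to `F` (exactness at `Hom(K,A)`); the bijection `Hom(K, Infl N) ≃ Hom(K_S, N)`
 is additive and respects extends to `F` (`QRes_adj` with `s = 1`).  `Qe_quot`: two surjections from the same set with the same fibres have equivalent targets.
`n + 2`: composition with the extension class is a bijection `Ext^(n+1)(K,A) ≃ Ext^(n+2)(M,A)` (both sides; `Qe_step`).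
-/

set_option autoImplicit false
set_option linter.all false

namespace Pool.Agent.H5.ZP

open CategoryTheory CategoryTheory.Abelian CategoryTheory.Limits Pool.Agent.H5.CP Pool.Agent.H75.CP

theorem Qe_quot {X Y Z : Type} (f : X → Y) (g : X → Z) (hf : Function.Surjective f)
    (hg : Function.Surjective g) (h : ∀ a b, f a = f b ↔ g a = g b) : Nonempty (Y ≃ Z) := by
  choose s hs using hf
  choose t ht using hg
  exact ⟨{ toFun := fun y => g (s y)
           invFun := fun z => f (t z)
           left_inv := fun y => by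
            show f (t (g (s y))) = y
            rw [(h _ _).2 (ht (g (s y)))]
            exact hs y
           right_inv := fun z => by
            show g (s (f (t z))) = z
            rw [(h _ _).1 (hs (f (t z)))]
            exact ht z }⟩

theorem Qe_mk0_sub {C : Type*} [Category C] [Abelian C] [HasExt C] {X A : C} (f g : X ⟶ A) :
    Ext.mk₀ (f - g) = Ext.mk₀ f - Ext.mk₀ g :=
  map_sub (Ext.addEquiv₀ (X := X) (Y := A)).symm f g

theorem Qe_step {k G : Type} [CommRing k] [Group G] {X : ShortComplex (Rep.{0} k G)}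
    (hX : X.ShortExact) [Projective X.X₂] (A : Rep.{0} k G) (n : ℕ) :
    Nonempty (Ext X.X₃ A (n + 2) ≃ Ext X.X₁ A (n + 1)) := by
  have hn : 1 + (n + 1) = n + 2 := by omega
  refine ⟨(Equiv.ofBijective (fun e : Ext X.X₁ A (n + 1) => hX.extClass.comp e hn) ⟨?_, ?_⟩).symm⟩
  · intro a b hab
    have h3 : hX.extClass.precomp A hn (a - b)
          = hX.extClass.precomp A hn a - hX.extClass.precomp A hn b := map_sub _ _ _
    have h1 : hX.extClass.comp (a - b) hn = 0 := h3.trans (sub_eq_zero.2 hab)
    obtain ⟨x, hx⟩ := Ext.contravariant_sequence_exact₁ hX A (a - b) hn h1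
    rw [Ext.eq_zero_of_projective x, Ext.comp_zero] at hx
    exact sub_eq_zero.1 hx.symm
  · intro e
    obtain ⟨x, hx⟩ := Ext.contravariant_sequence_exact₃ hX A e (Ext.eq_zero_of_projective _) hn
    exact ⟨x, hx⟩

/-- the classes in `Ext¹` as images of homomorphisms from the kernel -/
theorem Qe_one_surj {k G : Type} [CommRing k] [Group G] {X : ShortComplex (Rep.{0} k G)}
    (hX : X.ShortExact) [Projective X.X₂] (A : Rep.{0} k G) :
    Function.Surjective (fun f : X.X₁ ⟶ A => hX.extClass.comp (Ext.mk₀ f) (add_zero 1)) := by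
  intro e
  obtain ⟨x, hx⟩ := Ext.contravariant_sequence_exact₃ hX A e (Ext.eq_zero_of_projective _)
      (add_zero 1)
  refine ⟨Ext.homEquiv₀ x, ?_⟩
  show hX.extClass.comp (Ext.mk₀ (Ext.homEquiv₀ x)) (add_zero 1) = e
  rw [Ext.mk₀_homEquiv₀_apply]
  exact hx

theorem Qe_one_iff {k G : Type} [CommRing k] [Group G] {X : ShortComplex (Rep.{0} k G)}
    (hX : X.ShortExact) [Projective X.X₂] (A : Rep.{0} k G) (a b : X.X₁ ⟶ A) :
    hX.extClass.comp (Ext.mk₀ a) (add_zero 1) = hX.extClass.comp (Ext.mk₀ b) (add_zero 1) ↔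
      ∃ g : X.X₂ ⟶ A, X.f ≫ g = a - b := by
  have h3 : hX.extClass.precomp A (add_zero 1) (Ext.mk₀ a - Ext.mk₀ b)
          = hX.extClass.precomp A (add_zero 1) (Ext.mk₀ a)
            - hX.extClass.precomp A (add_zero 1) (Ext.mk₀ b) := map_sub _ _ _
  constructor
  · intro hab
    have h1 : hX.extClass.comp (Ext.mk₀ (a - b)) (add_zero 1) = 0 := by
      rw [Qe_mk0_sub]
      exact h3.trans (sub_eq_zero.2 hab)
    obtain ⟨x, hx⟩ := Ext.contravariant_sequence_exact₁ hX A (Ext.mk₀ (a - b)) (add_zero 1) h1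
    refine ⟨Ext.homEquiv₀ x, ?_⟩
    rw [← Ext.mk₀_homEquiv₀_apply x, Ext.mk₀_comp_mk₀] at hx
    exact Ext.addEquiv₀.symm.injective hx
  · rintro ⟨g, hg⟩
    have h5 : Ext.mk₀ a - Ext.mk₀ b = (Ext.mk₀ X.f).comp (Ext.mk₀ g) (zero_add 0) := by
      rw [Ext.mk₀_comp_mk₀, hg, Qe_mk0_sub]
    have h6 : hX.extClass.precomp A (add_zero 1) (Ext.mk₀ a - Ext.mk₀ b) = 0 := by
      rw [h5]
      exact ShortComplex.ShortExact.extClass_comp_assoc hX (Ext.mk₀ g) (h := add_zero 1)
    exact sub_eq_zero.1 (h3.symm.trans h6)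

theorem Qe_adj {C : Type*} [Category C] [Preadditive C] {D : Type*} [Category D]
    [Preadditive D] {F : C ⥤ D} {I : D ⥤ C} [F.Additive] (adj : F ⊣ I) {K P : C} (i : K ⟶ P)
    (N : D) (f : K ⟶ I.obj N) :
    (∃ g : P ⟶ I.obj N, i ≫ g = f) ↔
      (∃ g : F.obj P ⟶ N, F.map i ≫ g = (adj.homEquiv K N).symm f) := by
  constructor
  · rintro ⟨g, hg⟩
    refine ⟨(adj.homEquiv P N).symm g, ?_⟩
    apply (adj.homEquiv K N).injective
    rw [adj.homEquiv_naturality_left, Equiv.apply_symm_apply, Equiv.apply_symm_apply, hg]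
  · rintro ⟨g, hg⟩
    refine ⟨adj.homEquiv P N g, ?_⟩
    rw [← adj.homEquiv_naturality_left, hg, Equiv.apply_symm_apply]

theorem Qe_main {k G : Type} [CommRing k] [Group G] {S : Subgroup G} [S.Normal]
    (C : QClass k S) (M : Rep.{0} k G) (hM : C.P M) (N : Rep.{0} k (G ⧸ S)) (n : ℕ) :
    Nonempty (Ext M ((Infl k S).obj N) n ≃ Ext ((QF k S).obj M) N n) := by
  obtain ⟨adj⟩ := QAdj_main k S
  induction n using Nat.strong_induction_on generalizing M with
  | _ n ih =>
    rcases n with _ | n
    · exact ⟨(Ext.homEquiv₀.trans (adj.homEquiv M N).symm).trans Ext.homEquiv₀.symm⟩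
    · -- presentation
      let X : ShortComplex (Rep.{0} k G) :=
        ShortComplex.mk (kernel.ι (Projective.π M)) (Projective.π M) (kernel.condition _)
      have hX : X.ShortExact :=
        { exact := ShortComplex.exact_kernel (Projective.π M)
          mono_f := inferInstanceAs (Mono (kernel.ι (Projective.π M)))
          epi_g := inferInstanceAs (Epi (Projective.π M)) }
      have hP : Projective X.X₂ := inferInstanceAs (Projective (Projective.over M))
      have hK : C.P X.X₁ := C.ker X hX hP hM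
      have hQ : (X.map (QF k S)).ShortExact := QEx_main C X hX hM
      have hP' : Projective (X.map (QF k S)).X₂ := QAdj_proj S X.X₂
      rcases n with _ | n
      · refine Qe_quot (X := (X.X₁ ⟶ (Infl k S).obj N))
          (fun f => hX.extClass.comp (Ext.mk₀ f) (add_zero 1))
          (fun f => hQ.extClass.comp (Ext.mk₀ ((adj.homEquiv X.X₁ N).symm f)) (add_zero 1))
          (Qe_one_surj hX _) ?_ ?_
        · intro e
          obtain ⟨f, hf⟩ := Qe_one_surj hQ N e
          refine ⟨adj.homEquiv X.X₁ N f, ?_⟩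
          have h5 : (adj.homEquiv X.X₁ N).symm (adj.homEquiv X.X₁ N f) = f :=
            Equiv.symm_apply_apply _ _
          exact (congrArg (fun t : (X.map (QF k S)).X₁ ⟶ N =>
            hQ.extClass.comp (Ext.mk₀ t) (add_zero 1)) h5).trans hf
        · intro a b
          have h1 := Qe_one_iff hX ((Infl k S).obj N) a b
          have h2 := Qe_one_iff hQ N ((adj.homEquiv X.X₁ N).symm a)
            ((adj.homEquiv X.X₁ N).symm b)
          have h3 := Qe_adj adj X.f N (a - b)
          have h4 : (adj.homEquiv X.X₁ N).symm (a - b)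
              = (adj.homEquiv X.X₁ N).symm a - (adj.homEquiv X.X₁ N).symm b :=
            map_sub (adj.homAddEquiv X.X₁ N).symm a b
          rw [h4] at h3
          exact Iff.trans h1 (Iff.trans h3 h2.symm)
      · obtain ⟨e1⟩ := Qe_step hX ((Infl k S).obj N) n
        obtain ⟨e2⟩ := Qe_step hQ N n
        obtain ⟨e3⟩ := ih (n + 1) (by omega) X.X₁ hK
        exact ⟨(e1.trans e3).trans e2.symm⟩

end Pool.Agent.H5.ZP
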