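import Pool.Agent.H5.ZP.Defs
import Pool.Agent.H75.CP.FunA

/-!
Module Sh (row ZPSH).  Shapiro and products.
`Sh_pi`: `H^j(G; ∏ A_i)` finite.  `A_i → ∏ A_i → A_i` (`Pi.single`, evaluation; morphisms of `Rep`) compose to the identity, and `A_i → ∏ → A_l` to `0` for `i ≠ l`; apply `groupCohomology.map (MonoidHom.id G) _ j` (functor: `groupCohomology.functor k G j`).
 So `H^j(A_i)` embeds in `H^j(∏ A)` (finite), and if `H^j(A_i) ∋ ξ_i ≠ 0` for `i` in an infinite set then `i ↦ single_i(ξ_i)` is injective on this set, contradiction (`Set.Finite` via `Set.Finite.of_injOn`-like / `Finite.of_injective`).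
`Sh_main`: `FunA_m Y B` is an isomorphism `FunR Y B ≅ PiR (FunA_co Y B)` (`FunA_inj`, `FunA_surj`, see `FunA_main`), `FunA_co Y B o` is the module coinduced from the stabilizer of `o.out` (Defs of FunA), `groupCohomology.coindIso`.
-/

set_option autoImplicit false
set_option linter.all false

namespace Pool.Agent.H5.ZP

open CategoryTheory CategoryTheory.Abelian CategoryTheory.Limits Pool.Agent.H5.CP Pool.Agent.H75.CP

open Classical in
/-- the inclusion of a factor -/
noncomputable def Sh_in {k G : Type} [CommRing k] [Group G] {ι : Type} (A : ι → Rep.{0} k G) (i : ι) :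
    A i ⟶ PiR A :=
  Rep.ofHom ⟨{ toFun := fun x => (fun l => if h : i = l then h ▸ x else 0 : ∀ l, (A l).V)
               map_add' := by
                intro x y
                funext l
                by_cases h : i = l
                · subst h
                  simp
                · simp [h]
               map_smul' := by
                intro r x
                funext l
                by_cases h : i = l
                · subst h
                  simp
                · simp [h] }, by
    intro g
    apply LinearMap.ext
    intro x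
    funext l
    by_cases h : i = l
    · subst h
      show (if h : i = i then h ▸ ((A i).ρ g x) else 0 : (A i).V) =
        (A i).ρ g (if h : i = i then h ▸ x else 0 : (A i).V)
      simp
    · show (if h : i = l then h ▸ ((A i).ρ g x) else 0 : (A l).V) =
        (A l).ρ g (if h : i = l then h ▸ x else 0 : (A l).V)
      rw [dif_neg h, dif_neg h, map_zero]⟩

/-- the projection to a factor -/
noncomputable def Sh_ev {k G : Type} [CommRing k] [Group G] {ι : Type} (A : ι → Rep.{0} k G) (i : ι) :
    PiR A ⟶ A i :=
  Rep.ofHom ⟨{ toFun := fun x => (x : ∀ l, (A l).V) i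
               map_add' := fun _ _ => rfl
               map_smul' := fun _ _ => rfl }, fun _ => rfl⟩

open Classical in
theorem Sh_in_ev {k G : Type} [CommRing k] [Group G] {ι : Type} (A : ι → Rep.{0} k G) (i : ι) :
    Sh_in A i ≫ Sh_ev A i = 𝟙 (A i) := by
  ext x
  show (if h : i = i then h ▸ x else 0 : (A i).V) = x
  simp

open Classical in
theorem Sh_in_ev_ne {k G : Type} [CommRing k] [Group G] {ι : Type} (A : ι → Rep.{0} k G) {i l : ι}
    (hil : l ≠ i) : Sh_in A l ≫ Sh_ev A i = 0 := by
  ext x
  show (if h : l = i then h ▸ x else 0 : (A i).V) = 0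
  rw [dif_neg hil]

theorem Sh_fin {k : Type} [CommRing k] {X Y : ModuleCat.{0} k} (e : X ≅ Y) (h : Finite X) :
    Finite Y :=
  Finite.of_equiv X e.toLinearEquiv.toEquiv

theorem Sh_nt {k : Type} [CommRing k] {X Y : ModuleCat.{0} k} (e : X ≅ Y) (h : Nontrivial X) :
    Nontrivial Y :=
  e.symm.toLinearEquiv.toEquiv.nontrivial

theorem Sh_pi {k G : Type} [CommRing k] [Group G] {ι : Type} (A : ι → Rep.{0} k G) (j : ℕ)
    (h : Finite (groupCohomology (PiR A) j)) :
    (∀ i, Finite (groupCohomology (A i) j)) ∧
      {i : ι | Nontrivial (groupCohomology (A i) j)}.Finite := by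
  classical
  obtain ⟨Fc, hFc⟩ : ∃ Fc : Rep.{0} k G ⥤ ModuleCat.{0} k, Fc = groupCohomology.functor k G j := ⟨_, rfl⟩
  have hobj : ∀ B : Rep.{0} k G, Fc.obj B = groupCohomology B j := fun B => by rw [hFc]; rfl
  subst hFc
  have h1 : ∀ (i : ι) (x : groupCohomology (A i) j),
      ((groupCohomology.functor k G j).map (Sh_ev A i)).hom
        (((groupCohomology.functor k G j).map (Sh_in A i)).hom x) = x := by
    intro i x
    have h2 : (groupCohomology.functor k G j).map (Sh_in A i) ≫
        (groupCohomology.functor k G j).map (Sh_ev A i) = 𝟙 _ := by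
      rw [← CategoryTheory.Functor.map_comp, Sh_in_ev, CategoryTheory.Functor.map_id]
    exact congrArg (fun f => f.hom x) h2
  have h3 : ∀ (i l : ι), l ≠ i → ∀ x : groupCohomology (A l) j,
      ((groupCohomology.functor k G j).map (Sh_ev A i)).hom
        (((groupCohomology.functor k G j).map (Sh_in A l)).hom x) = 0 := by
    intro i l hil x
    have h2 : (groupCohomology.functor k G j).map (Sh_in A l) ≫
        (groupCohomology.functor k G j).map (Sh_ev A i) = 0 := by
      rw [← CategoryTheory.Functor.map_comp, Sh_in_ev_ne A hil]
      exact CategoryTheory.Functor.map_zero _ _ _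
    exact congrArg (fun f => f.hom x) h2
  have hf : Finite ((groupCohomology.functor k G j).obj (PiR A)) := h
  constructor
  · intro i
    refine @Finite.of_injective _ _ hf
      (fun x : groupCohomology (A i) j => ((groupCohomology.functor k G j).map (Sh_in A i)).hom x) ?_
    intro x y hxy
    have h4 := congrArg (fun z => ((groupCohomology.functor k G j).map (Sh_ev A i)).hom z) hxy
    have h5 := (h1 i x).symm.trans (h4.trans (h1 i y))
    exact h5
  · have h6 : ∀ i : {i : ι | Nontrivial (groupCohomology (A i) j)},
        ∃ x : groupCohomology (A i.1) j, x ≠ 0 := by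
      intro i
      have := i.2
      exact @exists_ne _ this 0
    choose ξ hξ using h6
    have h7 : Finite {i : ι | Nontrivial (groupCohomology (A i) j)} := by
      refine @Finite.of_injective _ _ hf
        (fun i : {i : ι | Nontrivial (groupCohomology (A i) j)} =>
          ((groupCohomology.functor k G j).map (Sh_in A i.1)).hom (ξ i)) ?_
      intro i l hil
      by_contra hne
      have hne' : l.1 ≠ i.1 := fun h => hne (Subtype.ext h).symm
      have h4 := congrArg (fun z => ((groupCohomology.functor k G j).map (Sh_ev A i.1)).hom z) hil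
      have h5 := (h1 i.1 (ξ i)).symm.trans (h4.trans (h3 i.1 l.1 hne' (ξ l)))
      exact hξ i h5
    exact Set.toFinite _

theorem Sh_main {k G : Type} [CommRing k] [Group G] (Y : Type) [MulAction G Y]
    (B : Rep.{0} k G) (j : ℕ) (h : Finite (groupCohomology (FunR Y B) j)) :
    (∀ o : MulAction.orbitRel.Quotient G Y,
      Finite (groupCohomology (Rep.res (MulAction.stabilizer G (Quotient.out o)).subtype B) j)) ∧
      {o : MulAction.orbitRel.Quotient G Y | Nontrivial
        (groupCohomology (Rep.res (MulAction.stabilizer G (Quotient.out o)).subtype B) j)}.Finite := by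
  have : Mono (FunA_m Y B) := (Rep.mono_iff_injective _).2 (FunA_inj Y B)
  have : Epi (FunA_m Y B) := (Rep.epi_iff_surjective _).2 (FunA_surj Y B)
  have : IsIso (FunA_m Y B) := isIso_of_mono_of_epi _
  have h1 : Finite (groupCohomology (PiR (FunA_co Y B)) j) :=
    Sh_fin ((groupCohomology.functor k G j).mapIso (asIso (FunA_m Y B))) h
  obtain ⟨h2, h3⟩ := Sh_pi (FunA_co Y B) j h1
  refine ⟨fun o => Sh_fin (groupCohomology.coindIso _ j) (h2 o), ?_⟩
  refine h3.subset ?_
  intro o ho
  exact Sh_nt (groupCohomology.coindIso _ j).symm ho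

end Pool.Agent.H5.ZP
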