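import Pool.Agent.H5.ZP.Fl
import Pool.Agent.H5.ZP.Sh
import Pool.Agent.H75.CP.InK

/-!
Module Sj (row ZPSJ).  Use only the STATEMENTS of Fl, Sh, InK.  `E : CX H G`, `CD (ZMod p) H n`, `Y = E.Y0 p ⊕ G`, `V = Rep.trivial ℤ G (ZMod p)`, killed by `p = p^1`.
`Sj_fun`: for `j ≥ 2n+3`: `H^j(G; QB Y V) = 0` (`InK_Z` with `K = 1`), so `H^j(G;V) → H^j(G;FunR Y V)` is onto (`QSe_main`, `Fl_onto`) and `H^j(G;FunR Y V)` is finite.
`Sj_main`: by `Sh_main` for `Y`: `Rep.res _ V` is the trivial module (`rfl`).  For `v ∈ E.Y0 p` let `o` be the orbit of `Sum.inl v` in `Y`; `o.out` is `Sum.inl v'` with `v'` in the orbit of `v`, and the stabilizer of `Sum.inl v'` in `Y` is the stabilizer of `v'` in `E.Y0 p`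
 (equal subgroups; transport `Ft`, `Nt` along the equality, or `Fl_iso`).  Let `R ⊆ E.Y0 p` be the set of these `v'`: every `v` is in the `G`-orbit of some `v' ∈ R`, all `H^j(Stab v';V)` are finite, and for every `j` only finitely many `v' ∈ R` have `H^j(Stab v';V) ≠ 0`.
 (`R` does not depend on `j`: it is chosen before `j`.)
-/

set_option autoImplicit false
set_option linter.all false

namespace Pool.Agent.H5.ZP

open CategoryTheory CategoryTheory.Abelian CategoryTheory.Limits Pool.Agent.H5.CP Pool.Agent.H75.CP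

theorem Sj_fun {H G : Type} [Group H] [Group G] (E : CX H G) (p : ℕ) [Fact p.Prime] (n : ℕ)
    (hH : CD (ZMod p) H n) (j : ℕ) (hj : 2 * n + 3 ≤ j) (hf : Ft p G j) :
    Finite (groupCohomology (FunR ((E.Y0 p) ⊕ G) (Rep.trivial ℤ G (ZMod p))) j) := by
  have h1 : IsZero (groupCohomology (QB ((E.Y0 p) ⊕ G) (Rep.trivial ℤ G (ZMod p))) j) := by
    refine InK_Z E p n hH 1 _ ?_ j hj
    intro b
    rw [pow_one]
    have h0 : ∀ b : ZMod p, p • b = 0 := by
      intro b
      rw [nsmul_eq_mul, ZMod.natCast_self, zero_mul]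
    exact h0 b
  haveI : Nonempty ((E.Y0 p) ⊕ G) := ⟨Sum.inr 1⟩
  have h2 := Fl_onto (QSe_main ((E.Y0 p) ⊕ G) (Rep.trivial ℤ G (ZMod p))) j h1
  haveI : Finite (groupCohomology (Rep.trivial ℤ G (ZMod p)) j) := hf
  haveI : Finite ((groupCohomology.functor ℤ G j).obj
      (QBS ((E.Y0 p) ⊕ G) (Rep.trivial ℤ G (ZMod p))).X₁) := hf
  exact Finite.of_surjective _ h2

theorem Sj_Ft {G : Type} [Group G] (p j : ℕ) (S S' : Subgroup G) (h : S = S')
    (hf : Finite (groupCohomology (Rep.res S.subtype (Rep.trivial ℤ G (ZMod p))) j)) :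
    Ft p S' j := by
  subst h
  exact hf

theorem Sj_Nt {G : Type} [Group G] (p j : ℕ) (S S' : Subgroup G) (h : S = S')
    (hf : Nt p S' j) :
    Nontrivial (groupCohomology (Rep.res S.subtype (Rep.trivial ℤ G (ZMod p))) j) := by
  subst h
  exact hf

theorem Sj_stab {Y G : Type} [Group G] [MulAction G Y] (v : Y) :
    MulAction.stabilizer G (Sum.inl v : Y ⊕ G) = MulAction.stabilizer G v := by
  ext g
  rw [MulAction.mem_stabilizer_iff, MulAction.mem_stabilizer_iff]
  constructor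
  · intro h
    exact Sum.inl_injective h
  · intro h
    exact congrArg Sum.inl h

theorem Sj_main {H G : Type} [Group H] [Group G] (E : CX H G) (p : ℕ) [Fact p.Prime] (n : ℕ)
    (hH : CD (ZMod p) H n) :
    ∃ R : Set (E.Y0 p), (∀ v : E.Y0 p, ∃ g : G, g • v ∈ R) ∧
      ∀ j, 2 * n + 3 ≤ j → Ft p G j →
        (∀ v ∈ R, Ft p (MulAction.stabilizer G v) j) ∧
          {v : E.Y0 p | v ∈ R ∧ Nt p (MulAction.stabilizer G v) j}.Finite := by
  refine ⟨{v : E.Y0 p | ∃ o : MulAction.orbitRel.Quotient G ((E.Y0 p) ⊕ G),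
    Quotient.out o = Sum.inl v}, ?_, ?_⟩
  · intro v
    obtain ⟨g, hg⟩ : ∃ g : G, g • (Sum.inl v : (E.Y0 p) ⊕ G) =
        Quotient.out (Quotient.mk'' (Sum.inl v : (E.Y0 p) ⊕ G) :
          MulAction.orbitRel.Quotient G ((E.Y0 p) ⊕ G)) := by
      have h := Quotient.mk_out (s := MulAction.orbitRel G ((E.Y0 p) ⊕ G))
        (Sum.inl v : (E.Y0 p) ⊕ G)
      exact MulAction.orbitRel_apply.1 h
    exact ⟨g, _, hg.symm⟩
  · intro j hj hf
    obtain ⟨h1, h2⟩ := Sh_main ((E.Y0 p) ⊕ G) (Rep.trivial ℤ G (ZMod p)) j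
      (Sj_fun E p n hH j hj hf)
    constructor
    · rintro v ⟨o, ho⟩
      refine Sj_Ft p j _ _ ?_ (h1 o)
      rw [ho]
      exact Sj_stab v
    · refine Set.Finite.of_injOn (f := fun v : E.Y0 p =>
        (Quotient.mk'' (Sum.inl v : (E.Y0 p) ⊕ G) :
          MulAction.orbitRel.Quotient G ((E.Y0 p) ⊕ G))) ?_ ?_ h2
      · rintro v ⟨⟨o, ho⟩, hv⟩
        have h3 : (Quotient.mk'' (Sum.inl v : (E.Y0 p) ⊕ G) :
            MulAction.orbitRel.Quotient G ((E.Y0 p) ⊕ G)) = o := by
          rw [← ho]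
          exact Quotient.out_eq' o
        have key : o ∈ {o : MulAction.orbitRel.Quotient G ((E.Y0 p) ⊕ G) | Nontrivial
            (groupCohomology (Rep.res (MulAction.stabilizer G (Quotient.out o)).subtype
              (Rep.trivial ℤ G (ZMod p))) j)} := by
          show Nontrivial _
          refine Sj_Nt p j _ _ ?_ hv
          rw [ho]
          exact Sj_stab v
        rw [← h3] at key
        exact key
      · rintro v ⟨⟨o, ho⟩, hv⟩ v' ⟨⟨o', ho'⟩, hv'⟩ h
        have h3 : (Quotient.mk'' (Sum.inl v : (E.Y0 p) ⊕ G) :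
            MulAction.orbitRel.Quotient G ((E.Y0 p) ⊕ G)) = o := by
          rw [← ho]
          exact Quotient.out_eq' o
        have h3' : (Quotient.mk'' (Sum.inl v' : (E.Y0 p) ⊕ G) :
            MulAction.orbitRel.Quotient G ((E.Y0 p) ⊕ G)) = o' := by
          rw [← ho']
          exact Quotient.out_eq' o'
        have h4 : o = o' := by
          rw [← h3, ← h3']
          exact h
        rw [h4, ho'] at ho
        exact (Sum.inl_injective ho).symm

end Pool.Agent.H5.ZP
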