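import Pool.Agent.H5.ZP.Sj
import Pool.Agent.H5.ZP.Gy
import Pool.Agent.H5.ZP.Cp
import Pool.Agent.H5.ZP.Gp

/-!
Module St (row ZPST).  Use only the STATEMENTS of Sj, Gy, Cp, Gp.  `E : CX H G`, `H^j(G;V)` finite for `j ≥ J`.
`R` from `Sj_main`.  For `v ∈ R`, `C = C_H(v)`: `Gp_main`: `CX (C × Cy p) (Stab v)`.
Finiteness: `Ft p (Stab v) j` for `j ≥ max J (2n+3)`, so `Ft p (C × Cy p) (j+1)` (`Gy_up`), so `Ft p C j` for all `j` (`Cp_ft`).
`R` is finite: let `2m ≥ max J (2n+3) + 2`; `Nt p (C × Cy p) (2m)` (`Cp_nt`) gives `Nt p (Stab v) (2m-1)` or `Nt p (Stab v) (2m)` (`Gy_zero`), so `R` is contained in the union of two finite sets.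
`g • v ∈ R`, `g = π x`: `(g • v).1 = x v x⁻¹` (`CX.Y0_smul`).
-/

set_option autoImplicit false
set_option linter.all false

namespace Pool.Agent.H5.ZP

open CategoryTheory CategoryTheory.Abelian CategoryTheory.Limits Pool.Agent.H5.CP Pool.Agent.H75.CP

theorem St_main {H G : Type} [Group H] [Group G] (E : CX H G) (p : ℕ) [Fact p.Prime] (n J : ℕ)
    (hH : CD (ZMod p) H n) (hf : ∀ j, J ≤ j → Ft p G j) :
    ∃ R : Set (E.Y0 p), R.Finite ∧ (∀ u : H, u ^ p = E.t → ∃ x : H, ∃ v ∈ R, x * u * x⁻¹ = v.1) ∧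
      ∀ v ∈ R, ∀ j, Ft p (Subgroup.centralizer {v.1} : Subgroup H) j := by
  obtain ⟨R, hR1, hR2⟩ := Sj_main E p n hH
  obtain ⟨M, hM⟩ : ∃ M, M = max J (2 * n + 3) := ⟨_, rfl⟩
  have hMJ : J ≤ M := hM ▸ le_max_left _ _
  have hMn : 2 * n + 3 ≤ M := hM ▸ le_max_right _ _
  have hstab : ∀ v ∈ R, ∀ j, M ≤ j → Ft p (MulAction.stabilizer G v) j := fun v hv j hj =>
    (hR2 j (le_trans hMn hj) (hf j (le_trans hMJ hj))).1 v hv
  have hcf : ∀ v ∈ R, ∀ j, Ft p (Subgroup.centralizer {v.1} : Subgroup H) j := by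
    intro v hv j
    obtain ⟨F⟩ := Gp_main E p v
    refine Cp_ft p _ (M + 1) ?_ j
    intro i hi
    obtain ⟨k, rfl⟩ : ∃ k, i = k + 1 := ⟨i - 1, by omega⟩
    exact Gy_up F p k (hstab v hv k (by omega)) (hstab v hv (k + 1) (by omega))
  have hfin : R.Finite := by
    have h1 := (hR2 (2 * M + 1) (by omega) (hf _ (by omega))).2
    have h2 := (hR2 (2 * M + 2) (by omega) (hf _ (by omega))).2
    refine (h1.union h2).subset ?_
    intro v hv
    by_contra hcon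
    obtain ⟨F⟩ := Gp_main E p v
    refine Gy_zero F p (2 * M) (fun h => hcon (Or.inl ⟨hv, h⟩)) (fun h => hcon (Or.inr ⟨hv, h⟩)) ?_
    have h3 := Cp_nt p (Subgroup.centralizer {v.1} : Subgroup H) (M + 1)
    rw [show 2 * (M + 1) = 2 * M + 2 by ring] at h3
    exact h3
  refine ⟨R, hfin, ?_, hcf⟩
  intro u hu
  obtain ⟨g, hg⟩ := hR1 ⟨u, hu⟩
  obtain ⟨x, rfl⟩ := E.surj g
  exact ⟨x, _, hg, (CX.Y0_smul E p x ⟨u, hu⟩).symm⟩

end Pool.Agent.H5.ZP
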